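import Pool.Agent.H18.GL.Valid

set_option autoImplicit false

open MeasureTheory ProbabilityTheory Filter
open scoped ENNReal Topology
open Pool.Agent.H41.GL

namespace Pool.Agent.H18.GL

/-! ### Finite sums over the data -/

theorem asm_sum_D_succ (m R : ℕ) (F : D m (R + 1) → ℝ) :
    ∑ d : D m (R + 1), F d = ∑ o : Own m, ∑ e : Fin 4 → D m R, F (o, e) := by
  exact Fintype.sum_prod_type (fun d : Own m × (Fin 4 → D m R) => F d)

theorem asm_wtOwn_nonneg {m : ℕ} {p : ℝ} {r : ℕ → ℝ} (hp0 : 0 ≤ p) (hp1 : p ≤ 1)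
    (hr : ∀ i, 0 < r i ∧ r i < 1) (o : Own m) : 0 ≤ wtOwn m p r o := by
  unfold wtOwn
  apply mul_nonneg
  · split_ifs
    · exact hp0
    · linarith
  · apply Finset.prod_nonneg
    intro i _
    split_ifs
    · exact (hr i).1.le
    · linarith [(hr i).2]

theorem asm_wt_nonneg {m : ℕ} {p : ℝ} {r : ℕ → ℝ} (hp0 : 0 ≤ p) (hp1 : p ≤ 1)
    (hr : ∀ i, 0 < r i ∧ r i < 1) : ∀ (R : ℕ) (d : D m R), 0 ≤ wt m p r R d
  | 0, _ => by simp [wt]
  | R + 1, d => by
      unfold wt
      exact mul_nonneg (asm_wtOwn_nonneg hp0 hp1 hr _)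
        (Finset.prod_nonneg fun w _ => asm_wt_nonneg hp0 hp1 hr R _)

theorem asm_sum_wtOwn (m : ℕ) (p : ℝ) (r : ℕ → ℝ) : ∑ o : Own m, wtOwn m p r o = 1 := by
  unfold wtOwn
  rw [Fintype.sum_prod_type]
  have h1 : ∀ b : Bool, ∑ ρ : Fin m → Bool, (if b = true then p else 1 - p) *
      ∏ i : Fin m, (if ρ i = true then r i else 1 - r i) = if b = true then p else 1 - p := by
    intro b
    rw [← Finset.mul_sum]
    have h2 : ∑ ρ : Fin m → Bool, ∏ i : Fin m, (if ρ i = true then r i else 1 - r i) =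
        ∏ i : Fin m, ∑ c : Bool, (if c = true then r i else 1 - r i) := by
      rw [Finset.prod_univ_sum, Fintype.piFinset_univ]
    rw [h2]
    simp
  simp only [h1]
  simp

theorem asm_sum_wt (m : ℕ) (p : ℝ) (r : ℕ → ℝ) : ∀ R : ℕ, ∑ d : D m R, wt m p r R d = 1
  | 0 => by
      have : (∑ d : D m 0, wt m p r 0 d) = ∑ d : Unit, (1 : ℝ) := rfl
      rw [this]; simp
  | R + 1 => by
      rw [asm_sum_D_succ]
      have h1 : ∀ o : Own m, ∑ e : Fin 4 → D m R, wt m p r (R + 1) (o, e) = wtOwn m p r o := by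
        intro o
        have h2 : ∀ e : Fin 4 → D m R, wt m p r (R + 1) (o, e) =
            wtOwn m p r o * ∏ w : Fin 4, wt m p r R (e w) := fun e => rfl
        simp only [h2]
        rw [← Finset.mul_sum]
        have h3 : ∑ e : Fin 4 → D m R, ∏ w : Fin 4, wt m p r R (e w) =
            ∏ w : Fin 4, ∑ d : D m R, wt m p r R d := by
          rw [Finset.prod_univ_sum]
          simp
        rw [h3, asm_sum_wt m p r R]
        simp
      simp only [h1]
      exact asm_sum_wtOwn m p r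

/-- The good root event, as a set of data. -/
def RootSet (m R : ℕ) : Set (D m (R + 1)) :=
  {d | d.1.1 = true ∧ (∀ i, d.1.2 i = false) ∧ ∀ w : Fin 4, w ≠ 3 → ∃ c, Valid m R (d.2 w) 0 c (m + 1)}

open Classical in
theorem rootSet_weight (m R : ℕ) (p : ℝ) (r : ℕ → ℝ) :
    ∑ d : D m (R + 1), wt m p r (R + 1) d * (if d ∈ RootSet m R then 1 else 0) =
      p * (∏ i : Fin m, (1 - r i)) * survProb m p r R ^ 3 := by
  rw [asm_sum_D_succ]
  set o0 : Own m := (true, fun _ => false) with ho0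
  have h1 : ∀ o : Own m, ∀ e : Fin 4 → D m R,
      wt m p r (R + 1) (o, e) * (if ((o, e) : D m (R + 1)) ∈ RootSet m R then 1 else 0) =
      (if o = o0 then wtOwn m p r o else 0) * ∏ w : Fin 4, (wt m p r R (e w) *
        (if w ≠ 3 → ∃ c, Valid m R (e w) 0 c (m + 1) then 1 else 0)) := by
    intro o e
    have h2 : wt m p r (R + 1) (o, e) = wtOwn m p r o * ∏ w : Fin 4, wt m p r R (e w) := rfl
    rw [h2, Finset.prod_mul_distrib]
    have h3 : (∏ w : Fin 4, (if w ≠ 3 → ∃ c, Valid m R (e w) 0 c (m + 1) then (1 : ℝ) else 0)) =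
        if ∀ w : Fin 4, w ≠ 3 → ∃ c, Valid m R (e w) 0 c (m + 1) then 1 else 0 := by
      rw [Finset.prod_ite_zero]
      simp
    rw [h3]
    have h4 : (((o, e) : D m (R + 1)) ∈ RootSet m R) ↔
        (o = o0 ∧ ∀ w : Fin 4, w ≠ 3 → ∃ c, Valid m R (e w) 0 c (m + 1)) := by
      constructor
      · rintro ⟨ha, hb, hc⟩
        refine ⟨?_, hc⟩
        rw [ho0]
        exact Prod.ext ha (funext hb)
      · rintro ⟨rfl, hc⟩
        exact ⟨rfl, fun _ => rfl, hc⟩
    by_cases ho : o = o0 <;>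
      by_cases hc : ∀ w : Fin 4, w ≠ 3 → ∃ c, Valid m R (e w) 0 c (m + 1)
    · rw [if_pos (h4.2 ⟨ho, hc⟩), if_pos ho, if_pos hc]; ring
    · rw [if_neg (fun h => hc (h4.1 h).2), if_pos ho, if_neg hc]; ring
    · rw [if_neg (fun h => ho (h4.1 h).1), if_neg ho]; ring
    · rw [if_neg (fun h => ho (h4.1 h).1), if_neg ho]; ring
  refine (Finset.sum_congr rfl fun o _ => Finset.sum_congr rfl fun e _ => h1 o e).trans ?_
  simp only [← Finset.mul_sum]
  rw [← Finset.sum_mul]
  have h5 : ∑ o : Own m, (if o = o0 then wtOwn m p r o else 0) = p * ∏ i : Fin m, (1 - r i) := by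
    rw [Finset.sum_ite_eq' Finset.univ o0]
    simp [wtOwn, ho0]
  have h6 : ∑ e : Fin 4 → D m R, ∏ w : Fin 4, (wt m p r R (e w) *
        (if w ≠ 3 → ∃ c, Valid m R (e w) 0 c (m + 1) then (1 : ℝ) else 0)) =
      ∏ w : Fin 4, ∑ d : D m R, (wt m p r R d *
        (if w ≠ 3 → ∃ c, Valid m R d 0 c (m + 1) then (1 : ℝ) else 0)) := by
    rw [Finset.prod_univ_sum]
    simp
  rw [h5, h6, Fin.prod_univ_four]
  have h7 : ∀ w : Fin 4, w ≠ 3 → ∑ d : D m R, (wt m p r R d *
        (if w ≠ 3 → ∃ c, Valid m R d 0 c (m + 1) then (1 : ℝ) else 0)) = survProb m p r R := by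
    intro w hw
    unfold survProb
    apply Finset.sum_congr rfl
    intro d _
    simp [hw]
  have h8 : ∑ d : D m R, (wt m p r R d *
        (if (3 : Fin 4) ≠ 3 → ∃ c, Valid m R d 0 c (m + 1) then (1 : ℝ) else 0)) = 1 := by
    simp only [ne_eq, not_true_eq_false, false_implies, if_true, mul_one]
    exact asm_sum_wt m p r R
  rw [h7 0 (by decide), h7 1 (by decide), h7 2 (by decide), h8]
  ring

/-- Probability of a set of data. -/
theorem prob_datX (hdat : StDatLaw) {V : Type} {G : SimpleGraph V} [G.LocallyFinite]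
    (htree : G.IsTree) {ch : V → V → Fin 4 → V} (hk : Kids G ch) {p : ℝ} (hp0 : 0 ≤ p) (hp1 : p ≤ 1)
    (X : Dynamics G p) (m : ℕ) {r : ℕ → ℝ} (hr : ∀ i, 0 < r i ∧ r i < 1) (R : ℕ) {u v : V}
    (huv : G.Adj u v) (S : Set (D m R)) [DecidablePred (· ∈ S)] :
    MeasurableSet[X.mΩ] {ω | datX X m (slotT r) ch R u v ω ∈ S} ∧
    X.P {ω | datX X m (slotT r) ch R u v ω ∈ S} =
      ENNReal.ofReal (∑ d : D m R, wt m p r R d * (if d ∈ S then 1 else 0)) := by
  classical
  let _ := X.mΩ
  have key := hdat V G inferInstance htree ch hk p hp0 hp1 X m r hr R u v huv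
  have hset : {ω | datX X m (slotT r) ch R u v ω ∈ S} =
      ⋃ d ∈ (Finset.univ.filter (· ∈ S) : Finset (D m R)),
        {ω | datX X m (slotT r) ch R u v ω = d} := by
    ext ω
    simp
  constructor
  · rw [hset]
    exact Finset.measurableSet_biUnion _ fun d _ => (key d).1
  · rw [hset, measure_biUnion_finset]
    · rw [Finset.sum_congr rfl fun d _ => (key d).2, ← ENNReal.ofReal_sum_of_nonneg
        (fun d _ => asm_wt_nonneg hp0 hp1 hr R d)]
      congr 1
      rw [Finset.sum_filter]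
      apply Finset.sum_congr rfl
      intro d _
      split_ifs <;> simp
    · intro d _ d' _ hdd'
      apply Set.disjoint_left.2
      intro ω h1 h2
      exact hdd' (h1.symm.trans h2)
    · exact fun d _ => (key d).1

theorem slotT_const {h : ℝ} : slotT (fun _ => 1 - Real.exp (-h)) = fun i : ℕ => (i : ℝ) * h := by
  funext i
  unfold slotT
  simp

theorem slotT_mono {r : ℕ → ℝ} (hr : ∀ i, 0 < r i ∧ r i < 1) : Monotone (slotT r) := by
  apply monotone_nat_of_le_succ
  intro i
  unfold slotT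
  rw [Finset.sum_range_succ]
  have : Real.log (1 - r i) ≤ 0 := Real.log_nonpos (by linarith [(hr i).2]) (by linarith [(hr i).1])
  linarith

/-- The probability of long chains is small. -/
theorem chain_prob (hch : StChainGC) (hgc : StGCBound) (hdat : StDatLaw) (hgood : StGood)
    {V : Type} [Countable V] {G : SimpleGraph V} [G.LocallyFinite] (htree : G.IsTree)
    {ch : V → V → Fin 4 → V} (hk : Kids G ch) {p : ℝ} (hp0 : 0 ≤ p) (hp1 : p ≤ 1)
    (X : Dynamics G p) (R n : ℕ) {u v : V} (huv : G.Adj u v) :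
    X.P {ω | Chain ch (fun v k => X.gap v k ω) R u v (n : ℝ)} ≤
      ENNReal.ofReal (2 ^ (16 * n) * (1 / 2) ^ R) := by
  classical
  let _ := X.mΩ
  set K := 16 * n with hK
  set h : ℝ := 1 / 16 with hh
  have hhpos : 0 < h := by norm_num [hh]
  have hr : ∀ i : ℕ, 0 < (fun _ : ℕ => 1 - Real.exp (-h)) i ∧
      (fun _ : ℕ => 1 - Real.exp (-h)) i < 1 := by
    intro i
    constructor
    · have : Real.exp (-h) < 1 := by rw [Real.exp_lt_one_iff]; linarith
      simpa using this
    · have := Real.exp_pos (-h)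
      simpa using this
  have hP := (prob_datX hdat htree hk hp0 hp1 X K hr R huv {d | GC K R d K}).2
  have hle : X.P {ω | Chain ch (fun v k => X.gap v k ω) R u v (n : ℝ)} ≤
      X.P {ω | datX X K (slotT fun _ => 1 - Real.exp (-h)) ch R u v ω ∈ {d | GC K R d K}} := by
    apply measure_mono_ae
    filter_upwards [hgood V G inferInstance p X inferInstance] with ω hω hchain
    have h1 := hch V ch (fun v => X.init v ω) (fun v k => X.gap v k ω) hω K h hhpos R u v K n le_rfl
      (by rw [hK, hh]; push_cast; linarith) hchain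
    show GC K R (dat K _ ch (fun v => X.init v ω) (fun v k => X.gap v k ω) R u v) K
    rw [slotT_const]
    exact h1
  refine hle.trans ?_
  rw [hP]
  apply ENNReal.ofReal_le_ofReal
  refine (hgc K p h hp0 hp1 hhpos R K le_rfl).trans (le_of_eq ?_)
  rw [hh]
  norm_num

theorem stStrong (hkids : StKids) (hroot : StRoot) (hch : StChainGC) (hgc : StGCBound)
    (hdat : StDatLaw) (hgood : StGood) (hcount : StCountable) : StStrong := by
  classical
  rintro ⟨m, r, p0, q, hq, hp0, hp0h, hr, hmain⟩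
  refine ⟨p0, hp0h, ?_⟩
  intro V G _ htree hreg p hp hp1 o X hfix
  let _ := X.mΩ
  have := X.isProb
  have : Countable V := hcount V G inferInstance htree.connected
  have hp0' : 0 ≤ p := hp0.le.trans hp
  obtain ⟨ch, hk⟩ := hkids V G inferInstance hreg
  -- a neighbour of the root
  obtain ⟨u, hu⟩ : ∃ u, G.Adj u o := by
    have h5 : 0 < G.degree o := by rw [hreg o]; norm_num
    obtain ⟨u, hu⟩ := (G.degree_pos_iff_exists_adj o).1 h5
    exact ⟨u, hu.symm⟩
  set c0 : ℝ := p * (∏ i : Fin m, (1 - r i)) * q ^ 3 with hc0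
  have hprod : 0 < ∏ i : Fin m, (1 - r i) := Finset.prod_pos fun i _ => by linarith [(hr i).2]
  have hc0pos : 0 < c0 := by
    have : 0 < p := hp0.trans_le hp
    positivity
  -- the root event
  set E : ℕ → Set X.Ω := fun R => {ω | datX X m (slotT r) ch (R + 1) u o ω ∈ RootSet m R} with hE
  have hEm : ∀ R, MeasurableSet (E R) := fun R =>
    (prob_datX hdat htree hk hp0' hp1 X m hr (R + 1) hu (RootSet m R)).1
  have hEP : ∀ R, ENNReal.ofReal c0 ≤ X.P (E R) := by
    intro R
    rw [(prob_datX hdat htree hk hp0' hp1 X m hr (R + 1) hu (RootSet m R)).2, rootSet_weight]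
    apply ENNReal.ofReal_le_ofReal
    rw [hc0]
    apply mul_le_mul_of_nonneg_left _ (mul_nonneg hp0' hprod.le)
    exact pow_le_pow_left₀ hq.le (hmain p hp hp1 R) 3
  -- the events of being minus after time `n`
  set F : ℕ → Set X.Ω := fun n => {ω | ∀ t : ℝ, (n : ℝ) ≤ t → X.σ o t ω = false} with hF
  have hFmono : Monotone F := by
    intro a b hab ω hω t ht
    exact hω t (le_trans (by exact_mod_cast hab) ht)
  have hFun : X.P (⋃ n, F n) = 1 := by
    have : ∀ᵐ ω ∂X.P, ω ∈ ⋃ n, F n := by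
      filter_upwards [hfix] with ω hω
      obtain ⟨T, hT⟩ := hω
      obtain ⟨n, hn⟩ := exists_nat_ge T
      exact Set.mem_iUnion.2 ⟨n, fun t ht => hT t (hn.trans ht)⟩
    rw [← prob_compl_eq_zero_iff₀]
    · exact this
    · exact NullMeasurableSet.of_compl (NullMeasurableSet.of_null this)
  have hlim : Tendsto (fun n => X.P (F n)) atTop (𝓝 1) := by
    rw [← hFun]
    exact tendsto_measure_iUnion_atTop hFmono
  have hhalf : 1 - ENNReal.ofReal (c0 / 2) < 1 := by
    apply ENNReal.sub_lt_self ENNReal.one_ne_top one_ne_zero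
    simpa using hc0pos
  obtain ⟨n, hn⟩ := (hlim.eventually (lt_mem_nhds hhalf)).exists
  -- choose the depth
  obtain ⟨R, hR⟩ : ∃ R : ℕ, (2 : ℝ) ^ (16 * (n + 1)) * (1 / 2) ^ (R + 1) < c0 / 2 := by
    have ht : Tendsto (fun R : ℕ => (2 : ℝ) ^ (16 * (n + 1)) * (1 / 2) ^ (R + 1)) atTop (𝓝 0) := by
      have h1 : Tendsto (fun R : ℕ => (1 / 2 : ℝ) ^ (R + 1)) atTop (𝓝 0) :=
        (tendsto_pow_atTop_nhds_zero_of_lt_one (by norm_num) (by norm_num)).comp
          (tendsto_add_atTop_nat 1)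
      simpa using h1.const_mul ((2 : ℝ) ^ (16 * (n + 1)))
    exact (ht.eventually (gt_mem_nhds (by linarith))).exists
  have hC := chain_prob hch hgc hdat hgood htree hk hp0' hp1 X (R + 1) (n + 1) hu
  have hbound : X.P (F n) ≤ X.P (E R)ᶜ +
      X.P {ω | Chain ch (fun v k => X.gap v k ω) (R + 1) u o ((n + 1 : ℕ) : ℝ)} := by
    refine le_trans (measure_mono_ae ?_) (measure_union_le _ _)
    filter_upwards [X.compat, hgood V G inferInstance p X inferInstance] with ω hc hg hω
    by_cases hER : ω ∈ E R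
    · right
      have hER' : datX X m (slotT r) ch (R + 1) u o ω ∈ RootSet m R := hER
      obtain ⟨h1, h2, h3⟩ := hER'
      rcases hroot V G inferInstance hreg ch hk _ _ _ _ hc hg m (slotT r) (by simp [slotT])
        (slotT_mono hr) R u o hu h1 h2 h3 ((n + 1 : ℕ) : ℝ) with h | h
      · exfalso
        have h4 := h n (by positivity) (by push_cast; linarith)
        have h5 := hω (n : ℝ) le_rfl
        rw [h5] at h4
        exact Bool.false_ne_true h4
      · exact h
    · left
      exact hER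
  have hcompl : X.P (E R)ᶜ ≤ 1 - ENNReal.ofReal c0 := by
    rw [prob_compl_eq_one_sub (hEm R)]
    exact tsub_le_tsub_left (hEP R) 1
  have hc01 : ENNReal.ofReal c0 ≤ 1 := (hEP R).trans prob_le_one
  have hfinal : X.P (F n) ≤ 1 - ENNReal.ofReal (c0 / 2) := by
    have h1 : X.P (F n) ≤ (1 - ENNReal.ofReal c0) + ENNReal.ofReal (c0 / 2) := by
      refine hbound.trans (add_le_add hcompl (hC.trans ?_))
      exact ENNReal.ofReal_le_ofReal hR.le
    have h2 : (1 : ℝ≥0∞) - ENNReal.ofReal c0 + ENNReal.ofReal (c0 / 2) =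
        1 - ENNReal.ofReal (c0 / 2) := by
      have hc1 : c0 ≤ 1 := by
        have := ENNReal.ofReal_le_one.1 hc01
        exact this
      rw [← ENNReal.ofReal_one, ← ENNReal.ofReal_sub _ hc0pos.le,
        ← ENNReal.ofReal_add (by linarith) (by linarith), ← ENNReal.ofReal_sub _ (by linarith)]
      congr 1
      ring
    rw [← h2]
    exact h1
  exact absurd hn (not_lt.2 hfinal)

theorem stFinal (hs : StStrong) (hdyn : StDynamics) (htree : StTree) (hcount : StCountable) :
    StFinal := by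
  intro hcav
  obtain ⟨p0, hp0, hstr⟩ := hs hcav
  obtain ⟨V, G, hlf, htr, hreg, ⟨o⟩⟩ := htree
  have : Countable V := hcount V G hlf htr.connected
  have hle : ∀ p ∈ minusSet 5, p ≤ max p0 0 := by
    rintro p ⟨hp0', hp1, hp⟩
    by_contra hlt
    push Not at hlt
    obtain ⟨X⟩ := hdyn V G hlf inferInstance p hp0' hp1
    exact hstr V G hlf htr hreg p ((le_max_left _ _).trans hlt.le) hp1 o X (hp V G hlf htr hreg o X)
  have : pc 5 ≤ max p0 0 := Real.sSup_le hle (le_max_right _ _)
  exact this.trans_lt (max_lt hp0 (by norm_num))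

end Pool.Agent.H18.GL
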