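import Pool.Agent.H18.GL.Stmts

/-!
# Modules M6a, M6b: branches of a tree are disjoint; locally finite connected graphs are countable
-/

set_option autoImplicit false

namespace Pool.Agent.H18.GL

namespace Br

variable {V : Type} {G : SimpleGraph V}

/-- The neighbour closer to a root is unique. -/
theorem unique_closer (h : G.IsTree) {x v y z : V} (hy : G.Adj y v) (hz : G.Adj z v)
    (dy : G.dist x v = G.dist x y + 1) (dz : G.dist x v = G.dist x z + 1) : y = z := by
  obtain ⟨p, hp, hl⟩ := h.connected.exists_path_of_dist x y
  obtain ⟨p', hp', hl'⟩ := h.connected.exists_path_of_dist x z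
  have hq : (p.concat hy).IsPath := by
    apply SimpleGraph.Walk.isPath_of_length_eq_dist
    rw [SimpleGraph.Walk.length_concat, hl, dy]
  have hq' : (p'.concat hz).IsPath := by
    apply SimpleGraph.Walk.isPath_of_length_eq_dist
    rw [SimpleGraph.Walk.length_concat, hl', dz]
  have hss := h.isAcyclic.subsingleton_path x v
  have this : (⟨_, hq⟩ : G.Path x v) = ⟨_, hq'⟩ := Subsingleton.elim _ _
  have h3 : p.concat hy = p'.concat hz := congrArg Subtype.val this
  have h4 := congrArg SimpleGraph.Walk.penultimate h3
  simpa using h4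

theorem inBranch_dist (h : G.IsTree) {ch : V → V → Fin 4 → V} (hk : Kids G ch) (R : ℕ) :
    ∀ (u v : V), G.Adj u v → ∀ x, InBranch ch R u v x → G.dist x u = G.dist x v + 1 := by
  induction R with
  | zero => exact fun u v _ x hx => hx.elim
  | succ R ih =>
    intro u v huv x hx
    rcases hx with rfl | ⟨w, hw⟩
    · rw [SimpleGraph.dist_self, SimpleGraph.dist_eq_one_iff_adj.2 (SimpleGraph.Adj.symm huv)]
    · have h1 := ih v (ch u v w) (hk.adj u v huv w) x hw
      rcases h.dist_eq_dist_add_one_of_adj x huv with h2 | h2
      · exact h2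
      · exfalso
        exact hk.ne u v huv w (unique_closer h (hk.adj u v huv w).symm huv h1 h2)

end Br

theorem stBranch : StBranch := by
  intro V G h ch hk R u v huv
  refine ⟨fun w hw => ?_, fun w w' x hx hx' => ?_⟩
  · have h1 := Br.inBranch_dist h hk R v (ch u v w) (hk.adj u v huv w) v hw
    rw [SimpleGraph.dist_self] at h1
    omega
  · have h1 := Br.inBranch_dist h hk R v (ch u v w) (hk.adj u v huv w) x hx
    have h2 := Br.inBranch_dist h hk R v (ch u v w') (hk.adj u v huv w') x hx'
    exact hk.inj u v huv (Br.unique_closer h (hk.adj u v huv w).symm (hk.adj u v huv w').symm h1 h2)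

theorem stCountable : StCountable := by
  intro V G hlf hc
  obtain ⟨o⟩ := hc.nonempty
  have hfin : ∀ n : ℕ, {x : V | ∃ p : G.Walk x o, p.length = n}.Countable := by
    intro n
    induction n with
    | zero =>
      refine (Set.countable_singleton o).mono ?_
      rintro x ⟨p, hp⟩
      exact SimpleGraph.Walk.eq_of_length_eq_zero hp
    | succ n ih =>
      have h1 : (⋃ y ∈ {x : V | ∃ p : G.Walk x o, p.length = n}, G.neighborSet y).Countable :=
        ih.biUnion fun y _ => (Set.toFinite (G.neighborSet y)).countable
      refine h1.mono ?_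
      rintro x ⟨p, hp⟩
      cases p with
      | nil => simp at hp
      | cons hadj q =>
        rw [SimpleGraph.Walk.length_cons] at hp
        simp only [Set.mem_iUnion]
        exact ⟨_, ⟨q, by omega⟩, hadj.symm⟩
  have hall : (Set.univ : Set V).Countable := by
    refine (Set.countable_iUnion hfin).mono ?_
    intro x _
    obtain ⟨p⟩ := hc.preconnected x o
    exact Set.mem_iUnion.2 ⟨p.length, p, rfl⟩
  exact Set.countable_univ_iff.1 hall

end Pool.Agent.H18.GL
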