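import Pool.Agent.H18.GL.Stmts

/-!
# Module GLT-CHAIN: chains are seen by the discretised data; bound for the discretised chains
-/

set_option autoImplicit false

open MeasureTheory ProbabilityTheory Filter
open scoped ENNReal Topology
open Pool.Agent.H41.GL

namespace Pool.Agent.H18.GL

theorem ringTime_pos {g : ℕ → ℝ} (hg : GoodClock g) (k : ℕ) : 0 < ringTime g k := by
  unfold ringTime
  exact Finset.sum_pos (fun i _ => hg.pos i) ⟨0, by simp⟩

theorem stChainGC : StChainGC := by
  intro V ch init gap hgap m h hh R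
  induction R with
  | zero => intro u v i s _ _ _; exact trivial
  | succ R ih =>
    intro u v i s him hs hch
    obtain ⟨k, hk, w, hw⟩ := hch
    set x := ringTime (gap v) k with hx
    have hx0 : 0 < x := ringTime_pos (hgap v) k
    have hc0 : 0 < ⌈x / h⌉₊ := Nat.ceil_pos.mpr (div_pos hx0 hh)
    obtain ⟨j, hj⟩ : ∃ j, ⌈x / h⌉₊ = j + 1 := ⟨⌈x / h⌉₊ - 1, by omega⟩
    have h1 : x ≤ ((j + 1 : ℕ) : ℝ) * h := by
      have := Nat.le_ceil (x / h)
      rw [hj, div_le_iff₀ hh] at this
      exact this
    have h2 : (j : ℝ) * h < x := by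
      have : j < ⌈x / h⌉₊ := by omega
      rw [Nat.lt_ceil, lt_div_iff₀ hh] at this
      exact this
    have h3 : j < i := by
      have : (j : ℝ) * h < (i : ℝ) * h := by linarith
      have := lt_of_mul_lt_mul_right this hh.le
      exact_mod_cast this
    refine ⟨⟨j, by omega⟩, h3, ?_, w, ?_⟩
    · simp only [dat, ownDat, decide_eq_true_eq]
      exact ⟨k, h2, h1⟩
    · exact ih v (ch u v w) (j + 1) x (by omega) h1 hw

/-! ### The bound -/

section sums

variable {m : ℕ}

theorem sum_D_succ (R : ℕ) (F : D m (R + 1) → ℝ) :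
    ∑ d : D m (R + 1), F d = ∑ o : Own m, ∑ f : Fin 4 → D m R, F (o, f) := by
  exact Fintype.sum_prod_type (α₁ := Own m) (α₂ := Fin 4 → D m R) F

theorem sum_pi_prod {α : Type*} [Fintype α] (G : Fin 4 → α → ℝ) :
    ∑ f : Fin 4 → α, ∏ w, G w (f w) = ∏ w, ∑ x, G w x := by
  classical
  rw [Finset.prod_univ_sum, Fintype.piFinset_univ]

theorem sum_wtOwn (p : ℝ) (r : ℕ → ℝ) : ∑ o : Own m, wtOwn m p r o = 1 := by
  classical
  rw [Fintype.sum_prod_type]
  simp only [wtOwn]
  have h1 : ∑ f : Fin m → Bool, ∏ i : Fin m, (if f i = true then r i else 1 - r i) = 1 := by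
    have h2 : ∏ i : Fin m, ∑ b : Bool, (if b = true then r i else 1 - r i) = 1 := by
      apply Finset.prod_eq_one
      intro i _
      simp
    rw [Finset.prod_univ_sum, Fintype.piFinset_univ] at h2
    exact h2
  have h3 : ∀ b : Bool, ∑ f : Fin m → Bool, (if b = true then p else 1 - p) *
      ∏ i : Fin m, (if f i = true then r i else 1 - r i) = if b = true then p else 1 - p := by
    intro b
    rw [← Finset.mul_sum, h1, mul_one]
  refine (Finset.sum_congr rfl fun b _ => h3 b).trans ?_
  simp

theorem sum_wtOwn_ring (p : ℝ) (r : ℕ → ℝ) (j : Fin m) :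
    ∑ o : Own m, wtOwn m p r o * (if o.2 j = true then 1 else 0) = r j := by
  classical
  rw [Fintype.sum_prod_type]
  simp only [wtOwn, mul_assoc]
  have h1 : ∑ f : Fin m → Bool, (∏ i : Fin m, (if f i = true then r i else 1 - r i)) *
      (if f j = true then (1 : ℝ) else 0) = r j := by
    have h2 : ∏ i : Fin m, ∑ b : Bool, ((if b = true then r i else 1 - r i) *
        (if i = j then (if b = true then (1 : ℝ) else 0) else 1)) = r j := by
      rw [Finset.prod_eq_single j]
      · simp
      · intro i _ hi
        simp [hi]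
      · intro h
        exact absurd (Finset.mem_univ j) h
    rw [Finset.prod_univ_sum, Fintype.piFinset_univ] at h2
    rw [← h2]
    refine Finset.sum_congr rfl fun f _ => ?_
    rw [Finset.prod_mul_distrib, Finset.prod_ite_eq']
    simp
  have h3 : ∀ b : Bool, ∑ f : Fin m → Bool, (if b = true then p else 1 - p) *
      ((∏ i : Fin m, (if f i = true then r i else 1 - r i)) * (if f j = true then (1 : ℝ) else 0)) =
      (if b = true then p else 1 - p) * r j := by
    intro b
    rw [← Finset.mul_sum, h1]
  refine (Finset.sum_congr rfl fun b _ => h3 b).trans ?_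
  simp [← add_mul]

theorem sum_wt (p : ℝ) (r : ℕ → ℝ) (R : ℕ) : ∑ d : D m R, wt m p r R d = 1 := by
  induction R with
  | zero =>
    show ∑ d : Unit, (1 : ℝ) = 1
    simp
  | succ R ih =>
    rw [sum_D_succ]
    simp only [wt]
    simp only [← Finset.mul_sum, sum_pi_prod (fun _ => wt m p r R), ih]
    simp [sum_wtOwn]

theorem wtOwn_nonneg {p : ℝ} (hp0 : 0 ≤ p) (hp1 : p ≤ 1) {r : ℕ → ℝ} (hr : ∀ i, 0 ≤ r i ∧ r i ≤ 1)
    (o : Own m) : 0 ≤ wtOwn m p r o := by
  unfold wtOwn
  refine mul_nonneg ?_ (Finset.prod_nonneg fun i _ => ?_)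
  · split_ifs <;> linarith
  · split_ifs
    · exact (hr i).1
    · linarith [(hr i).2]

theorem wt_nonneg {p : ℝ} (hp0 : 0 ≤ p) (hp1 : p ≤ 1) {r : ℕ → ℝ} (hr : ∀ i, 0 ≤ r i ∧ r i ≤ 1)
    (R : ℕ) (d : D m R) : 0 ≤ wt m p r R d := by
  induction R with
  | zero => exact zero_le_one
  | succ R ih =>
    exact mul_nonneg (wtOwn_nonneg hp0 hp1 hr d.1) (Finset.prod_nonneg fun w _ => ih (d.2 w))

open Classical in
theorem sum_wt_child (p : ℝ) (r : ℕ → ℝ) (R : ℕ) (w : Fin 4) (P : D m R → Prop) :
    ∑ f : Fin 4 → D m R, (∏ w, wt m p r R (f w)) * (if P (f w) then (1 : ℝ) else 0) =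
      ∑ d : D m R, wt m p r R d * (if P d then 1 else 0) := by
  have h1 : ∀ f : Fin 4 → D m R, (∏ w, wt m p r R (f w)) * (if P (f w) then (1 : ℝ) else 0) =
      ∏ w', (wt m p r R (f w') * (if w' = w then (if P (f w') then (1 : ℝ) else 0) else 1)) := by
    intro f
    rw [Finset.prod_mul_distrib, Finset.prod_ite_eq']
    simp
  simp only [h1]
  rw [sum_pi_prod (fun w' x => wt m p r R x * (if w' = w then (if P x then (1 : ℝ) else 0) else 1)),
    Finset.prod_eq_single w]
  · simp
  · intro w' _ hw'
    simp [hw', sum_wt]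
  · intro h
    exact absurd (Finset.mem_univ w) h

end sums

theorem stGCBound : StGCBound := by
  classical
  intro m p h hp0 hp1 hh R
  have hr : ∀ i : ℕ, 0 ≤ (fun _ : ℕ => 1 - Real.exp (-h)) i ∧ (fun _ : ℕ => 1 - Real.exp (-h)) i ≤ 1 := by
    intro i
    have h1 : Real.exp (-h) ≤ 1 := Real.exp_le_one_iff.mpr (by linarith)
    have h2 := Real.exp_pos (-h)
    constructor
    · simp only; linarith
    · simp only; linarith
  have hrh : 1 - Real.exp (-h) ≤ h := by
    have := Real.add_one_le_exp (-h)
    linarith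
  induction R with
  | zero =>
    intro i _
    have h1 : ∀ d : D m 0, wt m p (fun _ => 1 - Real.exp (-h)) 0 d * (if GC m 0 d i then 1 else 0) ≤
        wt m p (fun _ => 1 - Real.exp (-h)) 0 d := by
      intro d
      split_ifs
      · rw [mul_one]
      · rw [mul_zero]
        exact wt_nonneg hp0 hp1 hr 0 d
    refine (Finset.sum_le_sum fun d _ => h1 d).trans ?_
    rw [sum_wt, pow_zero, mul_one]
    exact one_le_pow₀ (by norm_num)
  | succ R ih =>
    intro i him
    set r : ℕ → ℝ := fun _ => 1 - Real.exp (-h) with hrdef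
    rw [sum_D_succ]
    -- pointwise bound
    have hpt : ∀ (o : Own m) (f : Fin 4 → D m R),
        wt m p r (R + 1) (o, f) * (if GC m (R + 1) (o, f) i then 1 else 0) ≤
        ∑ j : Fin m, (if j.val < i then 1 else 0) * ∑ w : Fin 4,
          (wtOwn m p r o * (if o.2 j = true then 1 else 0)) *
            ((∏ w, wt m p r R (f w)) * (if GC m R (f w) (j.val + 1) then (1 : ℝ) else 0)) := by
      intro o f
      have hA : 0 ≤ wtOwn m p r o := wtOwn_nonneg hp0 hp1 hr o
      have hB : 0 ≤ ∏ w, wt m p r R (f w) := Finset.prod_nonneg fun w _ => wt_nonneg hp0 hp1 hr R _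
      have hnn : ∀ (j : Fin m) (w : Fin 4), 0 ≤ (wtOwn m p r o * (if o.2 j = true then 1 else 0)) *
            ((∏ w, wt m p r R (f w)) * (if GC m R (f w) (j.val + 1) then (1 : ℝ) else 0)) := by
        intro j w
        refine mul_nonneg (mul_nonneg hA ?_) (mul_nonneg hB ?_) <;> split_ifs <;> norm_num
      have hnn' : ∀ j : Fin m, 0 ≤ (if j.val < i then (1 : ℝ) else 0) * ∑ w : Fin 4,
          (wtOwn m p r o * (if o.2 j = true then 1 else 0)) *
            ((∏ w, wt m p r R (f w)) * (if GC m R (f w) (j.val + 1) then (1 : ℝ) else 0)) := by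
        intro j
        refine mul_nonneg ?_ (Finset.sum_nonneg fun w _ => hnn j w)
        split_ifs <;> norm_num
      by_cases hG : GC m (R + 1) (o, f) i
      · rw [if_pos hG, mul_one]
        obtain ⟨j, hj1, hj2, w, hw⟩ := hG
        refine le_trans ?_ (Finset.single_le_sum (fun j _ => hnn' j) (Finset.mem_univ j))
        rw [if_pos hj1, one_mul]
        refine le_trans ?_ (Finset.single_le_sum (fun w _ => hnn j w) (Finset.mem_univ w))
        have hj2' : o.2 j = true := hj2
        have hw' : GC m R (f w) (j.val + 1) := hw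
        rw [if_pos hj2', if_pos hw', mul_one, mul_one]
        exact le_of_eq rfl
      · rw [if_neg hG, mul_zero]
        exact Finset.sum_nonneg fun j _ => hnn' j
    calc ∑ o : Own m, ∑ f : Fin 4 → D m R,
          wt m p r (R + 1) (o, f) * (if GC m (R + 1) (o, f) i then 1 else 0)
        ≤ ∑ o : Own m, ∑ f : Fin 4 → D m R, ∑ j : Fin m, (if j.val < i then 1 else 0) *
            ∑ w : Fin 4, (wtOwn m p r o * (if o.2 j = true then 1 else 0)) *
            ((∏ w, wt m p r R (f w)) * (if GC m R (f w) (j.val + 1) then (1 : ℝ) else 0)) :=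
          Finset.sum_le_sum fun o _ => Finset.sum_le_sum fun f _ => hpt o f
      _ = ∑ j : Fin m, (if j.val < i then 1 else 0) * ∑ w : Fin 4, ∑ o : Own m,
            (wtOwn m p r o * (if o.2 j = true then 1 else 0)) * ∑ f : Fin 4 → D m R,
            ((∏ w, wt m p r R (f w)) * (if GC m R (f w) (j.val + 1) then (1 : ℝ) else 0)) := by
          simp only [Finset.mul_sum]
          simp only [Finset.sum_comm (s := (Finset.univ : Finset (Fin 4 → D m R)))
            (t := (Finset.univ : Finset (Fin m)))]
          rw [Finset.sum_comm]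
          refine Finset.sum_congr rfl fun j _ => ?_
          simp only [Finset.sum_comm (s := (Finset.univ : Finset (Fin 4 → D m R)))
            (t := (Finset.univ : Finset (Fin 4)))]
          rw [Finset.sum_comm]
      _ = ∑ j : Fin m, (if j.val < i then 1 else 0) * ∑ w : Fin 4,
            (r j * ∑ d : D m R, wt m p r R d * (if GC m R d (j.val + 1) then 1 else 0)) := by
          refine Finset.sum_congr rfl fun j _ => ?_
          congr 1
          refine Finset.sum_congr rfl fun w _ => ?_
          rw [← Finset.sum_mul, sum_wtOwn_ring, sum_wt_child p r R w (fun d => GC m R d (j.val + 1))]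
      _ ≤ ∑ j : Fin m, (if j.val < i then 1 else 0) * (4 * (h * (2 ^ (j.val + 1) * (8 * h) ^ R))) := by
          refine Finset.sum_le_sum fun j _ => ?_
          refine mul_le_mul_of_nonneg_left ?_ (by split_ifs <;> norm_num)
          rw [Finset.sum_const, Finset.card_univ, Fintype.card_fin, nsmul_eq_mul]
          push_cast
          refine mul_le_mul_of_nonneg_left ?_ (by norm_num)
          refine mul_le_mul hrh (ih (j.val + 1) j.2) ?_ hh.le
          exact Finset.sum_nonneg fun d _ => mul_nonneg (wt_nonneg hp0 hp1 hr R d)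
            (by split_ifs <;> norm_num)
      _ = (∑ j ∈ Finset.range i, 2 ^ j) * (8 * h) ^ (R + 1) := by
          have h1 : ∀ F : ℕ → ℝ, ∑ j : Fin m, (if j.val < i then 1 else 0) * F j.val =
              ∑ j ∈ Finset.range i, F j := by
            intro F
            rw [Fin.sum_univ_eq_sum_range (fun j => (if j < i then (1 : ℝ) else 0) * F j) m]
            rw [← Finset.sum_subset (Finset.range_mono him)]
            · refine Finset.sum_congr rfl fun j hj => ?_
              rw [if_pos (Finset.mem_range.mp hj), one_mul]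
            · intro j _ hj
              rw [Finset.mem_range] at hj
              rw [if_neg hj, zero_mul]
          rw [h1 (fun j => 4 * (h * (2 ^ (j + 1) * (8 * h) ^ R))), Finset.sum_mul]
          refine Finset.sum_congr rfl fun j _ => ?_
          ring
      _ ≤ 2 ^ i * (8 * h) ^ (R + 1) := by
          refine mul_le_mul_of_nonneg_right ?_ (by positivity)
          have : ∑ j ∈ Finset.range i, (2 : ℝ) ^ j = 2 ^ i - 1 := by
            have := geom_sum_eq (show (2 : ℝ) ≠ 1 by norm_num) i
            rw [this]; norm_num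
          rw [this]
          linarith

end Pool.Agent.H18.GL
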