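import Pool.Agent.H18.GL.Stmts

/-!
# Good clocks: almost sure positivity and divergence for independent exponential waiting times
-/

set_option autoImplicit false

open MeasureTheory ProbabilityTheory Filter
open scoped ENNReal Topology

namespace Pool.Agent.H18.GL

lemma expMeasure_Iic (x : ℝ) : expMeasure 1 (Set.Iic x) =
    ENNReal.ofReal (if 0 ≤ x then 1 - Real.exp (-x) else 0) := by
  have : IsProbabilityMeasure (expMeasure 1) := isProbabilityMeasure_expMeasure one_pos
  rw [← ofReal_cdf]
  rw [cdf_expMeasure_eq one_pos x]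
  simp

lemma expMeasure_Ioi (x : ℝ) (hx : 0 ≤ x) : expMeasure 1 (Set.Ioi x) =
    ENNReal.ofReal (Real.exp (-x)) := by
  have : IsProbabilityMeasure (expMeasure 1) := isProbabilityMeasure_expMeasure one_pos
  rw [← Set.compl_Iic, measure_compl measurableSet_Iic (measure_ne_top _ _), measure_univ,
    expMeasure_Iic, if_pos hx]
  rw [← ENNReal.ofReal_one, ← ENNReal.ofReal_sub _ (by
    have := Real.exp_le_one_iff.2 (neg_nonpos.2 hx); linarith)]
  congr 1; ring

variable {Ω : Type} [mΩ : MeasurableSpace Ω] {P : Measure Ω} [IsProbabilityMeasure P]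

lemma goodClock_of_indep (g : ℕ → Ω → ℝ) (hm : ∀ k, Measurable (g k))
    (hl : ∀ k, P.map (g k) = expMeasure 1) (hi : iIndepFun g P) :
    ∀ᵐ ω ∂P, GoodClock (fun k => g k ω) := by
  have hpos : ∀ᵐ ω ∂P, ∀ k, 0 < g k ω := by
    rw [ae_all_iff]
    intro k
    have h0 : P {ω | ¬ 0 < g k ω} = 0 := by
      have h1 : {ω | ¬ 0 < g k ω} = g k ⁻¹' (Set.Iic 0) := by ext ω; simp
      rw [h1, ← Measure.map_apply (hm k) measurableSet_Iic, hl k, expMeasure_Iic]
      simp
    exact h0
  have hev : P (limsup (fun k => g k ⁻¹' (Set.Ioi 1)) atTop) = 1 := by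
    refine measure_limsup_eq_one (fun k => hm k measurableSet_Ioi) ?_ ?_
    · rw [iIndepSet_iff_meas_biInter (fun k => hm k measurableSet_Ioi)]
      intro s
      exact hi.measure_inter_preimage_eq_mul s (fun _ _ => measurableSet_Ioi)
    · have h1 : ∀ k, P (g k ⁻¹' (Set.Ioi 1)) = ENNReal.ofReal (Real.exp (-1)) := by
        intro k
        rw [← Measure.map_apply (hm k) measurableSet_Ioi, hl k, expMeasure_Ioi 1 zero_le_one]
      simp only [h1]
      exact ENNReal.tsum_const_eq_top_of_ne_zero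
        (by simp [Real.exp_pos])
  have hev' : ∀ᵐ ω ∂P, ω ∈ limsup (fun k => g k ⁻¹' (Set.Ioi 1)) atTop := by
    rw [← prob_compl_eq_zero_iff₀] at hev
    · exact hev
    · exact (MeasurableSet.measurableSet_limsup
        (fun k => hm k measurableSet_Ioi)).nullMeasurableSet
  filter_upwards [hpos, hev'] with ω h1 h2
  refine ⟨h1, ?_⟩
  have hfreq : ∃ᶠ k in atTop, 1 < g k ω := by
    rw [mem_limsup_iff_frequently_mem] at h2
    exact h2
  have hmono : Monotone (ringTime (fun k => g k ω)) := by
    refine monotone_nat_of_le_succ fun k => ?_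
    unfold ringTime
    rw [Finset.sum_range_succ _ (k + 1)]
    linarith [h1 (k + 1)]
  rw [tendsto_atTop_atTop_iff_of_monotone hmono]
  have key : ∀ n : ℕ, ∃ a, (n : ℝ) ≤ ringTime (fun k => g k ω) a := by
    intro n
    induction n with
    | zero => exact ⟨0, by simp [ringTime, (h1 0).le]⟩
    | succ n ih =>
      obtain ⟨a, ha⟩ := ih
      obtain ⟨b, hb, hb1⟩ := (frequently_atTop.1 hfreq) (a + 1)
      refine ⟨b, ?_⟩
      obtain ⟨c, rfl⟩ : ∃ c, b = c + 1 := ⟨b - 1, by omega⟩
      have h3 : ringTime (fun k => g k ω) (c + 1) = ringTime (fun k => g k ω) c + g (c + 1) ω := by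
        unfold ringTime
        rw [Finset.sum_range_succ _ (c + 1)]
      have h4 := hmono (show a ≤ c by omega)
      rw [h3]; push_cast; linarith
  intro b
  obtain ⟨n, hn⟩ := exists_nat_ge b
  obtain ⟨a, ha⟩ := key n
  exact ⟨a, hn.trans ha⟩

end Pool.Agent.H18.GL
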