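import Pool.Agent.H18.GL.Stmts

/-!
# Law of the data of a branch
-/

set_option autoImplicit false

open MeasureTheory ProbabilityTheory Filter
open scoped ENNReal Topology
open Pool.Agent.H41.GL

namespace Pool.Agent.H18.GL

namespace DatLaw

lemma exists_rep (h3 : StBranch) {V : Type} {G : SimpleGraph V} [G.LocallyFinite] (hG : G.IsTree)
    (ch : V → V → Fin 4 → V) (hk : Kids G ch) {p : ℝ} (X : Dynamics G p) (m : ℕ) (T : ℕ → ℝ)
    (r : ℕ → ℝ) :
    ∀ (R : ℕ) (u v : V), G.Adj u v → ∀ d : D m R, ∃ (F : Finset V) (f : V → Own m),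
      (∀ x ∈ F, InBranch ch R u v x) ∧
      (∀ ω, datX X m T ch R u v ω = d ↔ ∀ x ∈ F, ownX X m T x ω = f x) ∧
      ∏ x ∈ F, wtOwn m p r (f x) = wt m p r R d := by
  classical
  intro R
  induction R with
  | zero =>
    intro u v _ d
    refine ⟨∅, fun _ => (false, fun _ => false), by simp, ?_, ?_⟩
    · intro ω
      constructor
      · intro _ x hx
        simp at hx
      · intro _
        exact rfl
    · simp [wt]
  | succ R ih =>
    intro u v huv d
    have hadj : ∀ w, G.Adj v (ch u v w) := hk.adj u v huv
    choose F f hF1 hF2 hF3 using fun w => ih v (ch u v w) (hadj w) (d.2 w)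
    obtain ⟨hb1, hb2⟩ := h3 V G hG ch hk R u v huv
    have huniq : ∀ w w' x, x ∈ F w → x ∈ F w' → w = w' := fun w w' x h h' =>
      hb2 w w' x (hF1 w x h) (hF1 w' x h')
    have hv : ∀ w, v ∉ F w := fun w h => hb1 w (hF1 w v h)
    set g : V → Own m := fun x =>
      if x = v then d.1 else if h : ∃ w, x ∈ F w then f h.choose x else d.1 with hg
    have hgv : g v = d.1 := by simp [hg]
    have hgw : ∀ w x, x ∈ F w → g x = f w x := by
      intro w x hx
      have hxv : x ≠ v := by
        rintro rfl
        exact hv w hx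
      have hex : ∃ w, x ∈ F w := ⟨w, hx⟩
      have : hex.choose = w := huniq _ _ x hex.choose_spec hx
      simp only [hg, if_neg hxv, dif_pos hex, this]
    have hvU : v ∉ Finset.univ.biUnion F := by
      simp only [Finset.mem_biUnion, Finset.mem_univ, true_and, not_exists]
      exact hv
    refine ⟨insert v (Finset.univ.biUnion F), g, ?_, ?_, ?_⟩
    · intro x hx
      rw [Finset.mem_insert] at hx
      rcases hx with rfl | hx
      · exact Or.inl rfl
      · simp only [Finset.mem_biUnion, Finset.mem_univ, true_and] at hx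
        obtain ⟨w, hw⟩ := hx
        exact Or.inr ⟨w, hF1 w x hw⟩
    · intro ω
      have h1 : datX X m T ch (R + 1) u v ω = d ↔
          (ownX X m T v ω = d.1 ∧ ∀ w, datX X m T ch R v (ch u v w) ω = d.2 w) := by
        constructor
        · intro h
          have h1 := congrArg Prod.fst h
          have h2 := congrArg Prod.snd h
          exact ⟨h1, fun w => congrFun h2 w⟩
        · rintro ⟨h1, h2⟩
          exact Prod.ext h1 (funext h2)
      rw [h1]
      constructor
      · rintro ⟨h1, h2⟩ x hx
        rw [Finset.mem_insert] at hx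
        rcases hx with rfl | hx
        · rw [hgv]; exact h1
        · simp only [Finset.mem_biUnion, Finset.mem_univ, true_and] at hx
          obtain ⟨w, hw⟩ := hx
          rw [hgw w x hw]
          exact (hF2 w ω).1 (h2 w) x hw
      · intro h
        refine ⟨?_, ?_⟩
        · rw [← hgv]
          exact h v (Finset.mem_insert_self _ _)
        · intro w
          rw [hF2 w ω]
          intro x hx
          rw [← hgw w x hx]
          apply h
          rw [Finset.mem_insert]
          right
          simp only [Finset.mem_biUnion, Finset.mem_univ, true_and]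
          exact ⟨w, hx⟩
    · rw [Finset.prod_insert hvU, hgv, Finset.prod_biUnion]
      · change _ = wtOwn m p r d.1 * ∏ w : Fin 4, wt m p r R (d.2 w)
        congr 1
        refine Finset.prod_congr rfl fun w _ => ?_
        rw [← hF3 w]
        exact Finset.prod_congr rfl fun x hx => by rw [hgw w x hx]
      · intro w _ w' _ hww'
        change Disjoint (F w) (F w')
        rw [Finset.disjoint_left]
        intro x hx hx'
        exact hww' (huniq w w' x hx hx')

lemma wtOwn_nonneg (m : ℕ) (p : ℝ) (hp : 0 ≤ p) (hp1 : p ≤ 1) (r : ℕ → ℝ)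
    (hr : ∀ i, 0 < r i ∧ r i < 1) (o : Own m) : 0 ≤ wtOwn m p r o := by
  unfold wtOwn
  refine mul_nonneg ?_ (Finset.prod_nonneg fun i _ => ?_)
  · split_ifs
    · exact hp
    · linarith
  · split_ifs
    · exact (hr i).1.le
    · linarith [(hr i).2]

end DatLaw

theorem stDatLaw (h1 : StOwnLaw) (h2 : StOwnIndep) (h3 : StBranch) : StDatLaw := by
  intro V G inst hG ch hk p hp hp1 X m r hr R u v huv d
  obtain ⟨F, f, -, hF2, hF3⟩ := DatLaw.exists_rep h3 hG ch hk X m (slotT r) r R u v huv d
  have hset : {ω | datX X m (slotT r) ch R u v ω = d} = {ω | ∀ x ∈ F, ownX X m (slotT r) x ω = f x} := by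
    ext ω
    exact hF2 ω
  obtain ⟨hmeas, hprod⟩ := h2 V G inst p X m (slotT r) F f
  rw [hset]
  refine ⟨?_, ?_⟩
  · letI := X.mΩ
    have : {ω | ∀ x ∈ F, ownX X m (slotT r) x ω = f x} =
        ⋂ x ∈ F, {ω | ownX X m (slotT r) x ω = f x} := by
      ext ω
      simp
    rw [this]
    exact Finset.measurableSet_biInter F fun x _ => hmeas x (f x)
  · rw [hprod, ← hF3, ENNReal.ofReal_prod_of_nonneg]
    · exact Finset.prod_congr rfl fun x _ => h1 V G inst p hp hp1 X m r hr x (f x)
    · intro x _
      exact DatLaw.wtOwn_nonneg m p hp hp1 r hr (f x)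

end Pool.Agent.H18.GL
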