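import Pool.Agent.H18.GL.Model
import Pool.Agent.H41.GL.Iface

/-!
# Theory half of `p_c(T_5) < 1/2`: auxiliary definitions

* `GoodClock`: the waiting times are positive and the ring times tend to infinity.
* `Kids G ch`: for adjacent `u, v` the four vertices `ch u v 0, …, ch u v 3` are the neighbours of `v`
  other than `u` (in a 5-regular graph).
* `ownDat`, `dat`: the data of a vertex / of the depth-`R` branch below `v` seen from `u`.
* `Chain`: a descending chain of rings down the branch.
* `GC`: the discretised chain event, as a function of the data.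
-/

set_option autoImplicit false

open MeasureTheory ProbabilityTheory Filter
open scoped ENNReal Topology
open Pool.Agent.H41.GL

namespace Pool.Agent.H18.GL

variable {V : Type}

/-- Waiting times are positive and the ring times tend to infinity. -/
structure GoodClock (g : ℕ → ℝ) : Prop where
  pos : ∀ k, 0 < g k
  lim : Tendsto (ringTime g) atTop atTop

/-- `ch u v` enumerates the neighbours of `v` other than `u` (four of them). -/
structure Kids (G : SimpleGraph V) (ch : V → V → Fin 4 → V) : Prop where
  adj : ∀ u v, G.Adj u v → ∀ i, G.Adj v (ch u v i)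
  inj : ∀ u v, G.Adj u v → Function.Injective (ch u v)
  ne : ∀ u v, G.Adj u v → ∀ i, ch u v i ≠ u
  surj : ∀ u v, G.Adj u v → ∀ w, G.Adj v w → w ≠ u → ∃ i, ch u v i = w

open Classical in
/-- Own data of a vertex with initial spin `b` and waiting times `g`, for the slots
`(T i, T (i+1)]`, `i < m`. -/
noncomputable def ownDat (m : ℕ) (T : ℕ → ℝ) (b : Bool) (g : ℕ → ℝ) : Own m :=
  (b, fun i => decide (∃ k, ringTime g k ∈ Set.Ioc (T i) (T (i + 1))))

/-- Data of the depth-`R` branch at `v`, seen from the neighbour `u`. -/
noncomputable def dat (m : ℕ) (T : ℕ → ℝ) (ch : V → V → Fin 4 → V) (init : V → Bool)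
    (gap : V → ℕ → ℝ) : (R : ℕ) → V → V → D m R
  | 0, _, _ => ()
  | R + 1, u, v => (ownDat m T (init v) (gap v), fun w => dat m T ch init gap R v (ch u v w))

/-- There is a descending chain of `R` rings, at `v` before time `s`, at a child of `v` before that
ring, and so on. -/
def Chain (ch : V → V → Fin 4 → V) (gap : V → ℕ → ℝ) : ℕ → V → V → ℝ → Prop
  | 0, _, _, _ => True
  | R + 1, u, v, s => ∃ k, ringTime (gap v) k < s ∧
      ∃ w : Fin 4, Chain ch gap R v (ch u v w) (ringTime (gap v) k)

/-- Discretised chains: a function of the data. -/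
def GC (m : ℕ) : (R : ℕ) → D m R → ℕ → Prop
  | 0, _, _ => True
  | R + 1, d, i => ∃ j : Fin m, j.val < i ∧ d.1.2 j = true ∧ ∃ w : Fin 4, GC m R (d.2 w) (j.val + 1)

/-- The slot boundaries belonging to the ring probabilities `r`. -/
noncomputable def slotT (r : ℕ → ℝ) (i : ℕ) : ℝ := ∑ j ∈ Finset.range i, -Real.log (1 - r j)

end Pool.Agent.H18.GL
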