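import Pool.Agent.H18.GL.Clock
import Mathlib.Probability.HasLawExists

/-!
# M10: the dynamics exists on every countable locally finite graph
-/

set_option autoImplicit false

open MeasureTheory ProbabilityTheory Filter
open scoped ENNReal Topology

namespace Pool.Agent.H18.GL

/-- Value types of the inputs. -/
def XT (V : Type) : V ⊕ (V × ℕ) ⊕ (V × ℕ) → Type
  | .inl _ => Bool
  | .inr (.inl _) => ℝ
  | .inr (.inr _) => Bool

@[reducible] def mXT (V : Type) : ∀ i, MeasurableSpace (XT V i)
  | .inl _ => (⊤ : MeasurableSpace Bool)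
  | .inr (.inl _) => borel ℝ
  | .inr (.inr _) => (⊤ : MeasurableSpace Bool)

/-- Bernoulli measure on `Bool`. -/
noncomputable def berMeas (p : ℝ) : @Measure Bool ⊤ :=
  ENNReal.ofReal p • @Measure.dirac Bool ⊤ true + ENNReal.ofReal (1 - p) • @Measure.dirac Bool ⊤ false

lemma berMeas_prob (p : ℝ) (h0 : 0 ≤ p) (h1 : p ≤ 1) : IsProbabilityMeasure (berMeas p) := by
  refine ⟨?_⟩
  simp only [berMeas, Measure.coe_add, Measure.coe_smul, Pi.add_apply, Pi.smul_apply,
    measure_univ, smul_eq_mul, mul_one]
  rw [← ENNReal.ofReal_add h0 (by linarith)]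
  simp

lemma berMeas_true (p : ℝ) : berMeas p {b | b = true} = ENNReal.ofReal p := by
  simp [berMeas]

/-- Laws of the inputs. -/
noncomputable def muXT (V : Type) (p : ℝ) : ∀ i, @Measure (XT V i) (mXT V i)
  | .inl _ => berMeas p
  | .inr (.inl _) => expMeasure 1
  | .inr (.inr _) => berMeas (1 / 2)

lemma muXT_prob (V : Type) (p : ℝ) (h0 : 0 ≤ p) (h1 : p ≤ 1) :
    ∀ i, @IsProbabilityMeasure (XT V i) (mXT V i) (muXT V p i)
  | .inl _ => berMeas_prob p h0 h1
  | .inr (.inl _) => isProbabilityMeasure_expMeasure one_pos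
  | .inr (.inr _) => berMeas_prob _ (by norm_num) (by norm_num)

theorem stDynamics (he : StExists) : StDynamics := by
  intro V G _ hV p h0 h1
  obtain ⟨Ω, mΩ, P, X, hXm, hXl, hXi, hP⟩ :=
    @exists_hasLaw_indepFun (V ⊕ (V × ℕ) ⊕ (V × ℕ)) (XT V) (mXT V) (muXT V p) (muXT_prob V p h0 h1)
  set init : V → Ω → Bool := fun v => X (Sum.inl v) with hinit
  set gap : V → ℕ → Ω → ℝ := fun v k => X (Sum.inr (Sum.inl (v, k))) with hgap
  set coin : V → ℕ → Ω → Bool := fun v k => X (Sum.inr (Sum.inr (v, k))) with hcoin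
  have hmi : ∀ v, Measurable (init v) := fun v => hXm (Sum.inl v)
  have hmg : ∀ v k, Measurable (gap v k) := fun v k => hXm (Sum.inr (Sum.inl (v, k)))
  have hmc : ∀ v k, Measurable (coin v k) := fun v k => hXm (Sum.inr (Sum.inr (v, k)))
  have hlg : ∀ v k, P.map (gap v k) = expMeasure 1 := fun v k =>
    (hXl (Sum.inr (Sum.inl (v, k)))).map_eq
  have hli : ∀ v, P {ω | init v ω = true} = ENNReal.ofReal p := by
    intro v
    have h := (hXl (Sum.inl v)).map_eq
    have h2 : P.map (init v) {b | b = true} = ENNReal.ofReal p := by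
      rw [← berMeas_true p]; exact congrArg (fun m : @Measure Bool ⊤ => m {b | b = true}) h
    rw [Measure.map_apply (hmi v) (MeasurableSpace.measurableSet_top)] at h2
    exact h2
  have hlc : ∀ v k, P {ω | coin v k ω = true} = 1 / 2 := by
    intro v k
    have h := (hXl (Sum.inr (Sum.inr (v, k)))).map_eq
    have h2 : P.map (coin v k) {b | b = true} = ENNReal.ofReal (1 / 2) := by
      rw [← berMeas_true (1 / 2)]; exact congrArg (fun m : @Measure Bool ⊤ => m {b | b = true}) h
    rw [Measure.map_apply (hmc v k) (MeasurableSpace.measurableSet_top)] at h2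
    have h3 : ENNReal.ofReal (1 / 2) = 1 / 2 := by
      rw [ENNReal.ofReal_div_of_pos (by norm_num)]; simp
    rw [← h3]; exact h2
  have hind : iIndep (inputSigma init gap coin) P := by
    have h := (iIndepFun_iff_iIndep (mXT V) X P).1 hXi
    have e : (fun i => (mXT V i).comap (X i)) = inputSigma init gap coin := by
      funext i
      rcases i with v | ⟨v, k⟩ | ⟨v, k⟩ <;> rfl
    rw [← e]; exact h
  have hgood : ∀ᵐ ω ∂P, ∀ v, GoodClock (fun k => gap v k ω) := by
    rw [ae_all_iff]
    intro v
    refine goodClock_of_indep (fun k => gap v k) (hmg v) (hlg v) ?_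
    have h2 := hind.precomp (g := fun k : ℕ => (Sum.inr (Sum.inl (v, k)) : V ⊕ (V × ℕ) ⊕ (V × ℕ)))
      (by intro a b hab; simpa using hab)
    rw [iIndepFun_iff_iIndep]
    exact h2
  have hex : ∀ ω, ∃ σ : V → ℝ → Bool, (∀ v, GoodClock (fun k => gap v k ω)) →
      Compat G (fun v => init v ω) (fun v k => gap v k ω) (fun v k => coin v k ω) σ := by
    intro ω
    by_cases h : ∀ v, GoodClock (fun k => gap v k ω)
    · obtain ⟨σ, hσ⟩ := he V G inferInstance (fun v => init v ω) (fun v k => gap v k ω)
        (fun v k => coin v k ω) h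
      exact ⟨σ, fun _ => hσ⟩
    · exact ⟨fun _ _ => false, fun h' => absurd h' h⟩
  choose S hS using hex
  exact ⟨{
    Ω := Ω
    mΩ := mΩ
    P := P
    isProb := hP
    init := init
    gap := gap
    coin := coin
    measurable_init := hmi
    measurable_gap := hmg
    measurable_coin := hmc
    law_init := hli
    law_gap := hlg
    law_coin := hlc
    indep := hind
    σ := fun v t ω => S ω v t
    compat := by
      filter_upwards [hgood] with ω hω
      exact hS ω hω }⟩

end Pool.Agent.H18.GL
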