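import Pool.Agent.H18.GL.Stmts

/-!
MODULE GLT-EXIST (helper19): for good clocks a compatible trajectory exists.
-/

set_option autoImplicit false

open Filter
open scoped Topology

namespace Pool.Agent.H18.GL

namespace Exist

variable {V : Type}

theorem newSpin_congr (G : SimpleGraph V) [G.LocallyFinite] {s s' : V → Bool} (c : Bool) (v : V)
    (h : ∀ w, G.Adj v w → s w = s' w) : newSpin G s c v = newSpin G s' c v := by
  have h1 : plusNbrs G s v = plusNbrs G s' v := by
    unfold plusNbrs
    congr 1
    refine Finset.filter_congr fun w hw => ?_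
    rw [h w (by simpa using hw)]
  unfold newSpin
  rw [h1]

theorem ringTime_strictMono {g : ℕ → ℝ} (hg : GoodClock g) : StrictMono (ringTime g) := by
  refine strictMono_nat_of_lt_succ fun k => ?_
  unfold ringTime
  rw [Finset.sum_range_succ _ (k + 1)]
  have := hg.pos (k + 1)
  linarith

/-- The number of rings before time `t`. -/
noncomputable def cnt (g : ℕ → ℝ) (t : ℝ) : ℕ := sInf {k | t ≤ ringTime g k}

/-- The number of rings up to time `t`. -/
noncomputable def num (g : ℕ → ℝ) (t : ℝ) : ℕ := sInf {k | t < ringTime g k}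

variable {g : ℕ → ℝ}

theorem cnt_le_iff (hg : GoodClock g) {t : ℝ} {k : ℕ} : cnt g t ≤ k ↔ t ≤ ringTime g k := by
  have hne : {k | t ≤ ringTime g k}.Nonempty := (hg.lim.eventually_ge_atTop t).exists
  constructor
  · intro h
    have h1 : t ≤ ringTime g (cnt g t) := Nat.sInf_mem hne
    exact h1.trans ((ringTime_strictMono hg).monotone h)
  · intro h
    exact Nat.sInf_le h

theorem num_le_iff (hg : GoodClock g) {t : ℝ} {k : ℕ} : num g t ≤ k ↔ t < ringTime g k := by
  have hne : {k | t < ringTime g k}.Nonempty := (hg.lim.eventually_gt_atTop t).exists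
  constructor
  · intro h
    have h1 : t < ringTime g (num g t) := Nat.sInf_mem hne
    exact h1.trans_le ((ringTime_strictMono hg).monotone h)
  · intro h
    exact Nat.sInf_le h

theorem cnt_mono (hg : GoodClock g) {s t : ℝ} (h : s ≤ t) : cnt g s ≤ cnt g t := by
  rw [cnt_le_iff hg]
  exact h.trans ((cnt_le_iff hg).mp le_rfl)

theorem cnt_ringTime (hg : GoodClock g) (k : ℕ) : cnt g (ringTime g k) = k := by
  refine le_antisymm ((cnt_le_iff hg).mpr le_rfl) ?_
  by_contra h
  rw [not_le] at h
  have h1 := (cnt_le_iff hg).mp (le_refl (cnt g (ringTime g k)))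
  have h2 := ringTime_strictMono hg h
  linarith

theorem num_ringTime (hg : GoodClock g) (k : ℕ) : num g (ringTime g k) = k + 1 := by
  refine le_antisymm ((num_le_iff hg).mpr (ringTime_strictMono hg (Nat.lt_succ_self k))) ?_
  by_contra h
  have h1 : num g (ringTime g k) ≤ k := by omega
  rw [num_le_iff hg] at h1
  exact lt_irrefl _ h1

/-- For `s` slightly below `t` the rings up to `s` are the rings before `t`. -/
theorem eventually_num (hg : GoodClock g) (t : ℝ) :
    ∀ᶠ s in 𝓝[<] t, num g s = cnt g t := by
  have h1 : ∀ᶠ s in 𝓝[<] t, s < t := eventually_mem_nhdsWithin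
  have h2 : ∀ᶠ s in 𝓝[<] t, ∀ j, j < cnt g t → ringTime g j ≤ s := by
    rcases Nat.eq_zero_or_pos (cnt g t) with h0 | h0
    · exact Eventually.of_forall fun s j hj => by omega
    · have h3 : ringTime g (cnt g t - 1) < t := by
        by_contra h
        rw [not_lt, ← cnt_le_iff hg] at h
        omega
      have h4 : ∀ᶠ s in 𝓝[<] t, ringTime g (cnt g t - 1) ≤ s :=
        (eventually_nhdsWithin_of_eventually_nhds (eventually_ge_nhds h3))
      filter_upwards [h4] with s hs j hj
      exact ((ringTime_strictMono hg).monotone (by omega)).trans hs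
  filter_upwards [h1, h2] with s hs hs2
  refine le_antisymm ?_ ?_
  · rw [num_le_iff hg]
    exact hs.trans_le ((cnt_le_iff hg).mp le_rfl)
  · by_contra h
    rw [not_le] at h
    have h3 := hs2 _ h
    have h4 := (num_le_iff hg).mp (le_refl (num g s))
    linarith

/-- The rank of the pair `(v, k)` for the recursion in the volume `F`. -/
noncomputable def rk (gap : V → ℕ → ℝ) (F : Finset V) (v : V) : ℕ → ℕ
  | 0 => 0
  | k + 1 => ∑ u ∈ F, cnt (gap u) (ringTime (gap v) k)

theorem rk_lt {gap : V → ℕ → ℝ} (hgap : ∀ v, GoodClock (gap v)) {F : Finset V} {v w : V}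
    (hw : w ∈ F) {k : ℕ} (h : cnt (gap w) (ringTime (gap v) k) ≠ 0) :
    rk gap F w (cnt (gap w) (ringTime (gap v) k)) < rk gap F v (k + 1) := by
  obtain ⟨j, hj⟩ := Nat.exists_eq_succ_of_ne_zero h
  rw [hj]
  have h1 : ringTime (gap w) j < ringTime (gap v) k := by
    by_contra h2
    rw [not_lt, ← cnt_le_iff (hgap w)] at h2
    omega
  show ∑ u ∈ F, cnt (gap u) (ringTime (gap w) j) < ∑ u ∈ F, cnt (gap u) (ringTime (gap v) k)
  refine Finset.sum_lt_sum (fun u _ => cnt_mono (hgap u) h1.le) ⟨w, hw, ?_⟩
  rw [cnt_ringTime (hgap w), hj]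
  exact Nat.lt_succ_self j

open Classical in
/-- The solution in the volume `F`: spin of `v` after its first `k` rings. -/
noncomputable def sF (G : SimpleGraph V) [G.LocallyFinite] (init : V → Bool) (gap : V → ℕ → ℝ)
    (coin : V → ℕ → Bool) (F : Finset V) : V → ℕ → Bool
  | v, 0 => init v
  | v, k + 1 => newSpin G (fun w =>
      if _h : rk gap F w (cnt (gap w) (ringTime (gap v) k)) < rk gap F v (k + 1) then
        sF G init gap coin F w (cnt (gap w) (ringTime (gap v) k)) else init w) (coin v k) v
termination_by v k => rk gap F v k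

theorem sF_zero (G : SimpleGraph V) [G.LocallyFinite] (init : V → Bool) (gap : V → ℕ → ℝ)
    (coin : V → ℕ → Bool) (F : Finset V) (v : V) : sF G init gap coin F v 0 = init v := by
  rw [sF]

theorem sF_succ (G : SimpleGraph V) [G.LocallyFinite] (init : V → Bool) {gap : V → ℕ → ℝ}
    (hgap : ∀ v, GoodClock (gap v)) (coin : V → ℕ → Bool) (F : Finset V) (v : V)
    (hv : ∀ w, G.Adj v w → w ∈ F) (k : ℕ) :
    sF G init gap coin F v (k + 1) =
      newSpin G (fun w => sF G init gap coin F w (cnt (gap w) (ringTime (gap v) k)))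
        (coin v k) v := by
  rw [sF]
  refine newSpin_congr G _ v fun w hw => ?_
  by_cases h0 : cnt (gap w) (ringTime (gap v) k) = 0
  · rw [h0, sF_zero]
    split_ifs <;> rfl
  · rw [dif_pos (rk_lt hgap (hv w hw) h0)]

end Exist

open Exist in
open Classical in
/-- M9. For good clocks a compatible trajectory exists (deterministic). -/
theorem stExists : StExists := by
  intro V G _ init gap coin hgap
  -- the ultrafilter
  let 𝒰 : Ultrafilter (Finset V) := Ultrafilter.of atTop
  have h𝒰 : (𝒰 : Filter (Finset V)) ≤ atTop := Ultrafilter.of_le atTop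
  let s : V → ℕ → Bool := fun v k =>
    decide (∀ᶠ F in (𝒰 : Filter (Finset V)), sF G init gap coin F v k = true)
  have hs : ∀ v k, ∀ᶠ F in (𝒰 : Filter (Finset V)), sF G init gap coin F v k = s v k := by
    intro v k
    by_cases h : ∀ᶠ F in (𝒰 : Filter (Finset V)), sF G init gap coin F v k = true
    · have h1 : s v k = true := decide_eq_true h
      rw [h1]
      exact h
    · have h1 : s v k = false := decide_eq_false h
      rw [h1]
      have h2 := Ultrafilter.eventually_not.mpr h
      filter_upwards [h2] with F hF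
      exact Bool.eq_false_iff.mpr hF
  have hs0 : ∀ v, s v 0 = init v := by
    intro v
    obtain ⟨F, hF⟩ := (hs v 0).exists
    rw [← hF, sF_zero]
  have hs1 : ∀ v k, s v (k + 1) =
      newSpin G (fun w => s w (cnt (gap w) (ringTime (gap v) k))) (coin v k) v := by
    intro v k
    have h1 : ∀ᶠ F in (𝒰 : Filter (Finset V)), G.neighborFinset v ≤ F :=
      h𝒰 (eventually_ge_atTop _)
    have h2 : ∀ᶠ F in (𝒰 : Filter (Finset V)), ∀ w ∈ G.neighborFinset v,
        sF G init gap coin F w (cnt (gap w) (ringTime (gap v) k)) =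
          s w (cnt (gap w) (ringTime (gap v) k)) :=
      (Filter.eventually_all_finset _).mpr fun w _ => hs w _
    obtain ⟨F, hF1, hF2, hF3⟩ := (h1.and (h2.and (hs v (k + 1)))).exists
    rw [← hF3, sF_succ G init hgap coin F v (fun w hw => hF1 (by simpa using hw)) k]
    exact newSpin_congr G _ v fun w hw => hF2 w (by simpa using hw)
  refine ⟨fun v t => s v (num (gap v) t), ?_, ?_, ?_⟩
  · intro v
    have h1 : num (gap v) 0 = 0 := by
      have h2 : num (gap v) 0 ≤ 0 := by
        rw [num_le_iff (hgap v)]
        have := (hgap v).pos 0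
        simpa [ringTime] using this
      omega
    show s v (num (gap v) 0) = init v
    rw [h1, hs0]
  · intro v a b _ hab hno
    show s v (num (gap v) b) = s v (num (gap v) a)
    congr 1
    refine le_antisymm ?_ ?_
    · rw [num_le_iff (hgap v)]
      have h1 := (num_le_iff (hgap v)).mp (le_refl (num (gap v) a))
      by_contra h2
      exact hno _ ⟨h1, not_lt.mp h2⟩
    · rw [num_le_iff (hgap v)]
      exact hab.trans_lt ((num_le_iff (hgap v)).mp (le_refl (num (gap v) b)))
  · intro v k
    have h1 : ∀ᶠ a in 𝓝[<] (ringTime (gap v) k), ∀ w ∈ G.neighborFinset v,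
        num (gap w) a = cnt (gap w) (ringTime (gap v) k) :=
      (Filter.eventually_all_finset _).mpr fun w _ => eventually_num (hgap w) _
    filter_upwards [h1] with a ha
    show s v (num (gap v) (ringTime (gap v) k)) =
      newSpin G (fun w => s w (num (gap w) a)) (coin v k) v
    rw [num_ringTime (hgap v), hs1]
    refine newSpin_congr G _ v fun w hw => ?_
    rw [ha w (by simpa using hw)]

end Pool.Agent.H18.GL
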