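import Pool.Agent.H18.GL.Stmts

/-!
# Module M8: almost surely all clocks are good
-/

set_option autoImplicit false

open MeasureTheory ProbabilityTheory Filter
open scoped ENNReal Topology

namespace Pool.Agent.H18.GL

namespace Gd

theorem exp_Iic_zero : expMeasure 1 (Set.Iic (0 : ℝ)) = 0 := by
  have := isProbabilityMeasure_expMeasure (r := 1) one_pos
  rw [← ofReal_cdf, cdf_expMeasure_eq one_pos]
  simp

theorem exp_Ioi_one : expMeasure 1 (Set.Ioi (1 : ℝ)) = ENNReal.ofReal (Real.exp (-1)) := by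
  have := isProbabilityMeasure_expMeasure (r := 1) one_pos
  have h1 : expMeasure 1 (Set.Iic (1 : ℝ)) = ENNReal.ofReal (1 - Real.exp (-1)) := by
    rw [← ofReal_cdf, cdf_expMeasure_eq one_pos]
    simp
  rw [← Set.compl_Iic, prob_compl_eq_one_sub measurableSet_Iic, h1, ← ENNReal.ofReal_one,
    ← ENNReal.ofReal_sub]
  · congr 1
    ring
  · have : Real.exp (-1) ≤ 1 := Real.exp_le_one_iff.2 (by norm_num)
    linarith

/-- Deterministic part: positive gaps, infinitely many of them larger than one. -/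
theorem good_of {g : ℕ → ℝ} (h0 : ∀ k, 0 < g k) (h1 : ∃ᶠ k in atTop, 1 < g k) : GoodClock g := by
  refine ⟨h0, ?_⟩
  have hmono : Monotone (ringTime g) := by
    refine monotone_nat_of_le_succ fun k => ?_
    unfold ringTime
    rw [Finset.sum_range_succ _ (k + 1)]
    linarith [h0 (k + 1)]
  refine tendsto_atTop_atTop.2 ?_
  suffices H : ∀ N : ℕ, ∃ k, (N : ℝ) ≤ ringTime g k by
    intro b
    obtain ⟨N, hN⟩ := exists_nat_ge b
    obtain ⟨k, hk⟩ := H N
    exact ⟨k, fun a ha => hN.trans (hk.trans (hmono ha))⟩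
  intro N
  induction N with
  | zero =>
    refine ⟨0, ?_⟩
    simp only [ringTime, zero_add, Finset.sum_range_one, Nat.cast_zero]
    exact (h0 0).le
  | succ N ih =>
    obtain ⟨k, hk⟩ := ih
    obtain ⟨j, hj, hgj⟩ := frequently_atTop.1 h1 (k + 1)
    refine ⟨j, ?_⟩
    obtain ⟨i, rfl⟩ : ∃ i, j = i + 1 := ⟨j - 1, by omega⟩
    have h2 : ringTime g k ≤ ringTime g i := hmono (by omega)
    have h3 : ringTime g (i + 1) = ringTime g i + g (i + 1) := by
      unfold ringTime
      rw [Finset.sum_range_succ _ (i + 1)]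
    rw [h3]
    push_cast
    linarith

end Gd

theorem stGood : StGood := by
  intro V G hlf p X hV
  let _ := X.mΩ
  have _ := X.isProb
  rw [ae_all_iff]
  intro v
  have hpos : ∀ k, ∀ᵐ ω ∂X.P, 0 < X.gap v k ω := by
    intro k
    have h1 : X.P (X.gap v k ⁻¹' Set.Iic 0) = 0 := by
      rw [← Measure.map_apply (X.measurable_gap v k) measurableSet_Iic, X.law_gap]
      exact Gd.exp_Iic_zero
    rw [ae_iff]
    convert h1 using 2
    ext ω
    simp
  have hmeas : ∀ k, MeasurableSet (X.gap v k ⁻¹' Set.Ioi 1) := fun k =>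
    X.measurable_gap v k measurableSet_Ioi
  have hind : iIndepSet (fun k => X.gap v k ⁻¹' Set.Ioi 1) X.P := by
    rw [iIndepSet_iff_meas_biInter hmeas]
    intro s
    have h1 : iIndep (fun k : ℕ => inputSigma X.init X.gap X.coin (Sum.inr (Sum.inl (v, k)))) X.P :=
      X.indep.precomp (g := fun k : ℕ => (Sum.inr (Sum.inl (v, k)) : V ⊕ (V × ℕ) ⊕ (V × ℕ)))
        (fun a b hab => by simpa using hab)
    rw [iIndep_iff] at h1
    refine h1 s fun i _ => ?_
    exact ⟨Set.Ioi 1, measurableSet_Ioi, rfl⟩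
  have hlim : X.P (limsup (fun k => X.gap v k ⁻¹' Set.Ioi 1) atTop) = 1 := by
    refine measure_limsup_eq_one hmeas hind ?_
    have h2 : ∀ k, X.P (X.gap v k ⁻¹' Set.Ioi 1) = ENNReal.ofReal (Real.exp (-1)) := by
      intro k
      rw [← Measure.map_apply (X.measurable_gap v k) measurableSet_Ioi, X.law_gap]
      exact Gd.exp_Ioi_one
    simp only [h2]
    refine ENNReal.tsum_const_eq_top_of_ne_zero ?_
    simp [Real.exp_pos]
  have hfreq : ∀ᵐ ω ∂X.P, ∃ᶠ k in atTop, 1 < X.gap v k ω := by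
    have h3 : ∀ᵐ ω ∂X.P, ω ∈ limsup (fun k => X.gap v k ⁻¹' Set.Ioi 1) atTop := by
      rw [← mem_ae_iff_prob_eq_one] at hlim
      · exact hlim
      · exact MeasurableSet.measurableSet_limsup hmeas
    filter_upwards [h3] with ω hω
    rw [mem_limsup_iff_frequently_mem] at hω
    exact hω
  filter_upwards [ae_all_iff.2 hpos, hfreq] with ω h1 h2
  exact Gd.good_of h1 h2

end Pool.Agent.H18.GL
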