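import Pool.Agent.H18.GL.Stmts

set_option autoImplicit false

open MeasureTheory ProbabilityTheory Filter
open scoped ENNReal Topology
open Pool.Agent.H41.GL

namespace Pool.Agent.H18.GL

theorem stKids : StKids := by
  classical
  intro V G _ hreg
  have key : ∀ u v : V, G.Adj u v → ∃ f : Fin 4 → V, Function.Injective f ∧
      Set.range f = {w | G.Adj v w ∧ w ≠ u} := by
    intro u v huv
    have hcard : ((G.neighborFinset v).erase u).card = 4 := by
      rw [Finset.card_erase_of_mem (by simpa using huv.symm), G.card_neighborFinset_eq_degree,
        hreg v]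
    let e := ((G.neighborFinset v).erase u).equivFinOfCardEq hcard
    refine ⟨fun i => (e.symm i : V), ?_, ?_⟩
    · intro i j h
      exact e.symm.injective (Subtype.ext h)
    · ext w
      constructor
      · rintro ⟨i, rfl⟩
        have := (e.symm i).2
        simp only [Finset.mem_erase, SimpleGraph.mem_neighborFinset] at this
        exact ⟨this.2, this.1⟩
      · rintro ⟨h1, h2⟩
        have hw : w ∈ (G.neighborFinset v).erase u := by
          simp [h1, h2]
        exact ⟨e ⟨w, hw⟩, by simp⟩
  choose f hinj hrange using key
  have hmem : ∀ u v (h : G.Adj u v) i, G.Adj v (f u v h i) ∧ f u v h i ≠ u := by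
    intro u v h i
    have : f u v h i ∈ Set.range (f u v h) := Set.mem_range_self i
    rw [hrange] at this
    exact this
  refine ⟨fun u v => if h : G.Adj u v then f u v h else fun _ => v, ?_, ?_, ?_, ?_⟩
  · intro u v h i
    simp only [h, dif_pos]
    exact (hmem u v h i).1
  · intro u v h
    simp only [h, dif_pos]
    exact hinj u v h
  · intro u v h i
    simp only [h, dif_pos]
    exact (hmem u v h i).2
  · intro u v h w hw1 hw2
    have : w ∈ Set.range (f u v h) := by
      rw [hrange]; exact ⟨hw1, hw2⟩
    simp only [h, dif_pos]
    exact this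

/-- Counting the plus neighbours through the enumeration. -/
theorem Kids.plusNbrs_eq {V : Type} {G : SimpleGraph V} [G.LocallyFinite]
    {ch : V → V → Fin 4 → V} (hk : Kids G ch) {u v : V} (h : G.Adj u v) (s : V → Bool) :
    plusNbrs G s v = (Finset.univ.filter fun w => s (ch u v w) = true).card +
      (if s u = true then 1 else 0) := by
  classical
  have hset : G.neighborFinset v = insert u (Finset.univ.image (ch u v)) := by
    ext w
    simp only [SimpleGraph.mem_neighborFinset, Finset.mem_insert, Finset.mem_image,
      Finset.mem_univ, true_and]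
    constructor
    · intro hw
      by_cases hwu : w = u
      · exact Or.inl hwu
      · exact Or.inr (hk.surj u v h w hw hwu)
    · rintro (rfl | ⟨i, rfl⟩)
      · exact h.symm
      · exact hk.adj u v h i
  have hu : u ∉ Finset.univ.image (ch u v) := by
    simp only [Finset.mem_image, Finset.mem_univ, true_and, not_exists]
    exact fun i => hk.ne u v h i
  unfold plusNbrs
  rw [hset, Finset.filter_insert]
  have himg : ((Finset.univ.image (ch u v)).filter fun w => s w = true) =
      (Finset.univ.filter fun w => s (ch u v w) = true).image (ch u v) := by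
    ext w
    simp only [Finset.mem_filter, Finset.mem_image, Finset.mem_univ, true_and]
    constructor
    · rintro ⟨⟨i, rfl⟩, h2⟩
      exact ⟨i, h2, rfl⟩
    · rintro ⟨i, h2, rfl⟩
      exact ⟨⟨i, rfl⟩, h2⟩
  rw [himg]
  split_ifs with hs
  · rw [Finset.card_insert_of_notMem, Finset.card_image_of_injective _ (hk.inj u v h)]
    intro hmem
    apply hu
    obtain ⟨i, _, hi⟩ := Finset.mem_image.1 hmem
    exact Finset.mem_image.2 ⟨i, Finset.mem_univ _, hi⟩
  · rw [Finset.card_image_of_injective _ (hk.inj u v h), Nat.add_zero]

end Pool.Agent.H18.GL
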