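import Mathlib

/-!
# Zero-temperature Glauber dynamics (MP_05ea9f_pr): definitions

Spins are Booleans, `true` is `+1` and `false` is `-1`.
-/

open MeasureTheory ProbabilityTheory Filter
open scoped ENNReal Topology

namespace Pool.Agent.H18.GL

variable {V : Type}

/-- Number of neighbours of `v` with spin `+1` in the configuration `s`. -/
noncomputable def plusNbrs (G : SimpleGraph V) [G.LocallyFinite] (s : V → Bool) (v : V) : ℕ :=
  ((G.neighborFinset v).filter fun w => s w = true).card

/-- The spin that `v` takes when its clock rings in the configuration `s`: the sign of a strict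
majority of the neighbours, and the outcome `c` of a coin in the case of a tie. -/
noncomputable def newSpin (G : SimpleGraph V) [G.LocallyFinite] (s : V → Bool) (c : Bool) (v : V) :
    Bool :=
  if G.degree v < 2 * plusNbrs G s v then true
  else if 2 * plusNbrs G s v < G.degree v then false
  else c

/-- Time of ring number `k` (`k = 0, 1, 2, …`) of a clock with waiting times
`gap 0, gap 1, gap 2, …`. -/
noncomputable def ringTime (gap : ℕ → ℝ) (k : ℕ) : ℝ := ∑ i ∈ Finset.range (k + 1), gap i

/-- The trajectory `σ` (`σ v t` is the spin of `v` at time `t ≥ 0`) follows the zero-temperature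
Glauber dynamics with initial spins `init`, waiting times `gap v 0, gap v 1, …` of the clock of `v`,
and coin `coin v k` for ring number `k` of `v`: it starts from `init`, the spin of `v` does not change
between rings of `v`, and at a ring of `v` it becomes the new spin computed from the
configuration just before the ring. -/
structure Compat (G : SimpleGraph V) [G.LocallyFinite] (init : V → Bool) (gap : V → ℕ → ℝ)
    (coin : V → ℕ → Bool) (σ : V → ℝ → Bool) : Prop where
  start : ∀ v, σ v 0 = init v
  const : ∀ v s t, 0 ≤ s → s ≤ t → (∀ k, ringTime (gap v) k ∉ Set.Ioc s t) → σ v t = σ v s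
  jump : ∀ v k, ∀ᶠ s in 𝓝[<] (ringTime (gap v) k),
    σ v (ringTime (gap v) k) = newSpin G (fun w => σ w s) (coin v k) v

/-- The σ-algebras generated by the single inputs of the dynamics: the initial spins, the waiting
times, the coins. -/
def inputSigma {Ω : Type} (init : V → Ω → Bool) (gap : V → ℕ → Ω → ℝ) (coin : V → ℕ → Ω → Bool) :
    V ⊕ (V × ℕ) ⊕ (V × ℕ) → MeasurableSpace Ω
  | .inl v => MeasurableSpace.comap (init v) ⊤
  | .inr (.inl i) => MeasurableSpace.comap (gap i.1 i.2) (borel ℝ)
  | .inr (.inr i) => MeasurableSpace.comap (coin i.1 i.2) ⊤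

/-- Zero-temperature Glauber dynamics on `G` in continuous time, started from independent spins,
each `+1` with probability `p`: the initial spins, the waiting times of the clocks and the coins are
mutually independent, the waiting times are exponential of rate one (every vertex has a rate-one
Poisson clock), the coins are fair, and almost surely the trajectory follows the rules. -/
structure Dynamics (G : SimpleGraph V) [G.LocallyFinite] (p : ℝ) where
  Ω : Type
  mΩ : MeasurableSpace Ω
  P : Measure Ω
  isProb : IsProbabilityMeasure P
  init : V → Ω → Bool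
  gap : V → ℕ → Ω → ℝ
  coin : V → ℕ → Ω → Bool
  measurable_init : ∀ v, Measurable (init v)
  measurable_gap : ∀ v k, Measurable (gap v k)
  measurable_coin : ∀ v k, Measurable (coin v k)
  law_init : ∀ v, P {ω | init v ω = true} = ENNReal.ofReal p
  law_gap : ∀ v k, P.map (gap v k) = expMeasure 1
  law_coin : ∀ v k, P {ω | coin v k ω = true} = 1 / 2
  indep : iIndep (inputSigma init gap coin) P
  σ : V → ℝ → Ω → Bool
  compat : ∀ᵐ ω ∂P, Compat G (fun v => init v ω) (fun v k => gap v k ω) (fun v k => coin v k ω)
    (fun v t => σ v t ω)

/-- The event that the spin at `o` converges and its limit is `-1`. -/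
def FixMinus {G : SimpleGraph V} [G.LocallyFinite] {p : ℝ} (X : Dynamics G p) (o : V)
    (ω : X.Ω) : Prop :=
  ∃ T : ℝ, ∀ t, T ≤ t → X.σ o t ω = false

/-- The set of densities `p` for which the spin at the root of the `d`-regular tree converges to
`-1` almost surely. -/
def minusSet (d : ℕ) : Set ℝ :=
  {p : ℝ | 0 ≤ p ∧ p ≤ 1 ∧
    ∀ (V : Type) (G : SimpleGraph V) (_ : G.LocallyFinite), G.IsTree → G.IsRegularOfDegree d →
      ∀ (o : V) (X : Dynamics G p), ∀ᵐ ω ∂X.P, FixMinus X o ω}

/-- The critical density `p_c` of the `d`-regular tree. -/
noncomputable def pc (d : ℕ) : ℝ := sSup (minusSet d)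

end Pool.Agent.H18.GL
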