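import Pool.Agent.H18.GL.Stmts

/-!
# Theory half, module GLT-INDEP: the own data of different vertices are independent
-/

set_option autoImplicit false

open MeasureTheory ProbabilityTheory Filter
open scoped ENNReal Topology
open Pool.Agent.H41.GL

namespace Pool.Agent.H18.GL

/-- The inputs belonging to the vertex `v`. -/
def inputsOf {V : Type} (v : V) : Set (V ⊕ (V × ℕ) ⊕ (V × ℕ)) :=
  {i | (i = .inl v) ∨ (∃ k, i = .inr (.inl (v, k)))}

theorem inputsOf_disjoint {V : Type} {v : V} {F : Set V} (h : v ∉ F) :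
    Disjoint (inputsOf v) (⋃ w ∈ F, inputsOf w) := by
  rw [Set.disjoint_left]
  intro i hi hi'
  simp only [Set.mem_iUnion] at hi'
  obtain ⟨w, hw, hi'⟩ := hi'
  apply h
  rcases hi with rfl | ⟨k, rfl⟩
  · rcases hi' with h1 | ⟨k, h1⟩
    · simp only [Sum.inl.injEq] at h1
      rwa [h1]
    · simp at h1
  · rcases hi' with h1 | ⟨k, h1⟩
    · simp at h1
    · simp only [Sum.inr.injEq, Sum.inl.injEq, Prod.mk.injEq] at h1
      rw [h1.1]; exact hw

theorem inputSigma_le {V : Type} {G : SimpleGraph V} [G.LocallyFinite] {p : ℝ} (X : Dynamics G p)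
    (i : V ⊕ (V × ℕ) ⊕ (V × ℕ)) : inputSigma X.init X.gap X.coin i ≤ X.mΩ := by
  letI := X.mΩ
  rcases i with v | ⟨v, k⟩ | ⟨v, k⟩
  · have := (X.measurable_init v).comap_le
    exact this
  · have := (X.measurable_gap v k).comap_le
    rw [BorelSpace.measurable_eq (α := ℝ)] at this
    exact this
  · have := (X.measurable_coin v k).comap_le
    exact this

/-- Own data at `v` are measurable for the σ-algebra of the inputs of `v`. -/
theorem measurableSet_ownX {V : Type} {G : SimpleGraph V} [G.LocallyFinite] {p : ℝ}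
    (X : Dynamics G p) (m : ℕ) (T : ℕ → ℝ) (v : V) (o : Own m) :
    MeasurableSet[⨆ i ∈ inputsOf v, inputSigma X.init X.gap X.coin i]
      {ω | ownX X m T v ω = o} := by
  classical
  set M : MeasurableSpace X.Ω := ⨆ i ∈ inputsOf v, inputSigma X.init X.gap X.coin i with hM
  have hle : ∀ i ∈ inputsOf v, inputSigma X.init X.gap X.coin i ≤ M := fun i hi =>
    le_iSup₂ (f := fun i (_ : i ∈ inputsOf v) => inputSigma X.init X.gap X.coin i) i hi
  have hinit : Measurable[M] (X.init v) := by
    have h1 : Measurable[inputSigma X.init X.gap X.coin (.inl v)] (X.init v) := by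
      have : @Measurable X.Ω Bool (MeasurableSpace.comap (X.init v) ⊤) ⊤ (X.init v) :=
        comap_measurable _
      exact this
    exact h1.mono (hle _ (Or.inl rfl)) le_rfl
  have hgap : ∀ k, Measurable[M] (X.gap v k) := by
    intro k
    have h1 : @Measurable X.Ω ℝ (inputSigma X.init X.gap X.coin (.inr (.inl (v, k)))) (borel ℝ)
        (X.gap v k) := by
      have : @Measurable X.Ω ℝ (MeasurableSpace.comap (X.gap v k) (borel ℝ)) (borel ℝ)
          (X.gap v k) := comap_measurable _
      exact this
    rw [BorelSpace.measurable_eq (α := ℝ)]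
    exact h1.mono (hle _ (Or.inr ⟨k, rfl⟩)) le_rfl
  have hring : ∀ k, Measurable[M] (fun ω => ringTime (fun j => X.gap v j ω) k) := by
    intro k
    unfold ringTime
    exact Finset.measurable_sum _ fun i _ => hgap i
  have hE : ∀ i : Fin m, MeasurableSet[M]
      {ω | ∃ k, ringTime (fun j => X.gap v j ω) k ∈ Set.Ioc (T i) (T (i + 1))} := by
    intro i
    have : {ω | ∃ k, ringTime (fun j => X.gap v j ω) k ∈ Set.Ioc (T i) (T (i + 1))}
        = ⋃ k, (fun ω => ringTime (fun j => X.gap v j ω) k) ⁻¹' Set.Ioc (T i) (T (i + 1)) := by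
      ext ω; simp
    rw [this]
    exact MeasurableSet.iUnion fun k => (hring k) measurableSet_Ioc
  have hset : {ω | ownX X m T v ω = o} = (X.init v ⁻¹' {o.1}) ∩
      ⋂ i : Fin m, {ω | (∃ k, ringTime (fun j => X.gap v j ω) k ∈ Set.Ioc (T i) (T (i + 1))) ↔
        o.2 i = true} := by
    ext ω
    simp only [ownX, ownDat, Set.mem_setOf_eq, Prod.ext_iff, Set.mem_inter_iff, Set.mem_preimage,
      Set.mem_singleton_iff, Set.mem_iInter, funext_iff]
    refine and_congr_right fun _ => forall_congr' fun i => ?_
    rw [Bool.eq_iff_iff, decide_eq_true_iff]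
  rw [hset]
  refine MeasurableSet.inter (hinit (measurableSet_singleton _)) (MeasurableSet.iInter fun i => ?_)
  by_cases h : o.2 i = true
  · simpa [h] using hE i
  · have := (hE i).compl
    convert this using 1
    ext ω
    simp [h]

theorem stOwnIndep : StOwnIndep := by
  classical
  intro V G _ p X m T F f
  letI := X.mΩ
  haveI := X.isProb
  have hM : ∀ v, (⨆ i ∈ inputsOf v, inputSigma X.init X.gap X.coin i) ≤ X.mΩ := fun v =>
    iSup₂_le fun i _ => inputSigma_le X i
  refine ⟨fun v o => hM v _ (measurableSet_ownX X m T v o), ?_⟩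
  induction F using Finset.induction_on with
  | empty => simp
  | insert a F ha ih =>
    rw [Finset.prod_insert ha, ← ih]
    have hdisj := inputsOf_disjoint (v := a) (F := (F : Set V)) (by simpa using ha)
    have hind := indep_iSup_of_disjoint (fun i => inputSigma_le X i) X.indep hdisj
    rw [Indep_iff] at hind
    have h2 : MeasurableSet[⨆ i ∈ ⋃ w ∈ (F : Set V), inputsOf w,
        inputSigma X.init X.gap X.coin i] {ω | ∀ v ∈ F, ownX X m T v ω = f v} := by
      have : {ω | ∀ v ∈ F, ownX X m T v ω = f v} = ⋂ v ∈ F, {ω | ownX X m T v ω = f v} := by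
        ext ω; simp
      rw [this]
      refine Finset.measurableSet_biInter F fun v hv => ?_
      refine (iSup₂_le fun i hi => ?_ : (⨆ i ∈ inputsOf v, inputSigma X.init X.gap X.coin i) ≤
        ⨆ i ∈ ⋃ w ∈ (F : Set V), inputsOf w, inputSigma X.init X.gap X.coin i) _
          (measurableSet_ownX X m T v (f v))
      refine le_iSup₂ (f := fun i (_ : i ∈ ⋃ w ∈ (F : Set V), inputsOf w) =>
        inputSigma X.init X.gap X.coin i) i ?_
      simp only [Set.mem_iUnion]
      exact ⟨v, by simpa using hv, hi⟩
    have := hind _ _ (measurableSet_ownX X m T a (f a)) h2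
    rw [← this]
    congr 1
    ext ω
    simp [Finset.forall_mem_insert]

end Pool.Agent.H18.GL
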