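import Pool.Agent.H18.GL.Stmts

/-!
# M4. Law of the own data (assuming the void probabilities `StVoid`)
-/

set_option autoImplicit false

open MeasureTheory ProbabilityTheory Filter
open scoped ENNReal Topology
open Pool.Agent.H41.GL

namespace Pool.Agent.H18.GL

/-- every input σ-algebra is below the ambient one -/
theorem Dynamics.inputSigma_le {V : Type} {G : SimpleGraph V} [G.LocallyFinite] {p : ℝ}
    (X : Dynamics G p) (i : V ⊕ (V × ℕ) ⊕ (V × ℕ)) :
    inputSigma X.init X.gap X.coin i ≤ X.mΩ := by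
  let _ := X.mΩ
  rcases i with v | ⟨v, k⟩ | ⟨v, k⟩
  · exact (X.measurable_init v).comap_le
  · exact (X.measurable_gap v k).comap_le
  · exact (X.measurable_coin v k).comap_le

theorem slotT_succ (r : ℕ → ℝ) (i : ℕ) : slotT r (i + 1) - slotT r i = -Real.log (1 - r i) := by
  simp [slotT, Finset.sum_range_succ]

/-- The event that `v` has no ring in `(a, b]` belongs to the σ-algebra of the waiting times of `v`. -/
theorem Dynamics.measurable_void {V : Type} {G : SimpleGraph V} [G.LocallyFinite] {p : ℝ}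
    (X : Dynamics G p) (v : V) (a b : ℝ) :
    MeasurableSet[⨆ i ∈ {x : V ⊕ (V × ℕ) ⊕ (V × ℕ) | ∃ k : ℕ, x = Sum.inr (Sum.inl (v, k))},
      inputSigma X.init X.gap X.coin i]
      {ω | ∀ k, ringTime (fun j => X.gap v j ω) k ∉ Set.Ioc a b} := by
  set 𝒢 : MeasurableSpace X.Ω :=
    ⨆ i ∈ {x : V ⊕ (V × ℕ) ⊕ (V × ℕ) | ∃ k : ℕ, x = Sum.inr (Sum.inl (v, k))},
      inputSigma X.init X.gap X.coin i with h𝒢
  have hgapm : ∀ k, Measurable[𝒢] (X.gap v k) := by
    intro k
    have h1 : MeasurableSpace.comap (X.gap v k) (borel ℝ) ≤ 𝒢 := by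
      rw [h𝒢]
      exact le_iSup₂_of_le (f := fun i (_ : i ∈ {x : V ⊕ (V × ℕ) ⊕ (V × ℕ) |
        ∃ k : ℕ, x = Sum.inr (Sum.inl (v, k))}) => inputSigma X.init X.gap X.coin i)
        (Sum.inr (Sum.inl (v, k))) ⟨k, rfl⟩ le_rfl
    intro s hs
    exact h1 _ ⟨s, hs, rfl⟩
  have hringm : ∀ k, Measurable[𝒢] (fun ω => ringTime (fun j => X.gap v j ω) k) := by
    intro k
    unfold ringTime
    exact Finset.measurable_sum _ fun i _ => hgapm i
  have h1 : {ω | ∀ k, ringTime (fun j => X.gap v j ω) k ∉ Set.Ioc a b} =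
      ⋂ k, ((fun ω => ringTime (fun j => X.gap v j ω) k) ⁻¹' (Set.Ioc a b))ᶜ := by
    ext ω
    simp
  rw [h1]
  exact MeasurableSet.iInter fun k => ((hringm k) measurableSet_Ioc).compl

theorem stOwnLaw (hv : StVoid) : StOwnLaw := by
  classical
  intro V G _ p hp0 hp1 X m r hr v o
  let _ := X.mΩ
  have := X.isProb
  set μ : Measure X.Ω := X.P with hμ
  set T : ℕ → ℝ := slotT r with hT
  have hTdiff : ∀ i, T (i + 1) - T i = -Real.log (1 - r i) := slotT_succ r
  have hTmono : Monotone T := by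
    refine monotone_nat_of_le_succ fun i => ?_
    have h1 : Real.log (1 - r i) ≤ 0 := Real.log_nonpos (by linarith [(hr i).2]) (by linarith [(hr i).1])
    linarith [hTdiff i]
  have hT0 : 0 ≤ T 0 := by simp [hT, slotT]
  -- the void events
  set N : ℕ → Set X.Ω := fun i =>
    {ω | ∀ k, ringTime (fun j => X.gap v j ω) k ∉ Set.Ioc (T i) (T (i + 1))} with hN
  -- the sigma-algebra of the waiting times of `v`
  set S1 : Set (V ⊕ (V × ℕ) ⊕ (V × ℕ)) := {Sum.inl v} with hS1
  set S2 : Set (V ⊕ (V × ℕ) ⊕ (V × ℕ)) := {x | ∃ k : ℕ, x = Sum.inr (Sum.inl (v, k))} with hS2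
  have hdisj : Disjoint S1 S2 := by
    rw [Set.disjoint_left]
    rintro x hx ⟨k, hk⟩
    rw [Set.mem_singleton_iff] at hx
    rw [hx] at hk
    exact absurd hk (by simp)
  have hNm : ∀ i, MeasurableSet[⨆ i ∈ S2, inputSigma X.init X.gap X.coin i] (N i) :=
    fun i => X.measurable_void v (T i) (T (i + 1))
  have hNm' : ∀ i, MeasurableSet (N i) := fun i =>
    (iSup₂_le fun i _ => X.inputSigma_le i : (⨆ i ∈ S2, inputSigma X.init X.gap X.coin i) ≤ X.mΩ) _
      (hNm i)
  -- independence of the waiting times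
  have hgi : iIndepFun (fun k => X.gap v k) μ := by
    have h1 := X.indep.precomp (g := fun k : ℕ => (Sum.inr (Sum.inl (v, k)) : V ⊕ (V × ℕ) ⊕ (V × ℕ)))
      (fun a b hab => by simpa using hab)
    exact h1
  have hvoid : ∀ I : Finset ℕ, μ (⋂ i ∈ I, N i) = ∏ i ∈ I, ENNReal.ofReal (1 - r i) := by
    intro I
    have h1 := hv X.Ω X.mΩ X.P X.isProb (fun k => X.gap v k) (fun k => X.measurable_gap v k)
      (fun k => X.law_gap v k) hgi T hT0 hTmono I
    have h2 : (⋂ i ∈ I, N i) = {ω | ∀ i ∈ I, ∀ k,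
        ringTime (fun j => X.gap v j ω) k ∉ Set.Ioc (T i) (T (i + 1))} := by
      ext ω
      simp [hN]
    rw [h2, hμ, h1, ← ENNReal.ofReal_prod_of_nonneg (fun i _ => by linarith [(hr i).2])]
    congr 1
    rw [← Finset.sum_neg_distrib, Real.exp_sum]
    refine Finset.prod_congr rfl fun i _ => ?_
    rw [hTdiff, neg_neg, Real.exp_log (by linarith [(hr i).2])]
  have hNi : ∀ i, μ (N i) = ENNReal.ofReal (1 - r i) := by
    intro i
    have := hvoid {i}
    simpa using this
  have hind : iIndepSet N μ := by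
    rw [iIndepSet_iff_meas_biInter hNm']
    intro I
    rw [hvoid I]
    exact Finset.prod_congr rfl fun i _ => (hNi i).symm
  have hind' : iIndepSet (fun i : Fin m => N i) μ :=
    hind.precomp (g := fun i : Fin m => (i : ℕ)) Fin.val_injective
  -- the pattern
  set B : Fin m → Set X.Ω := fun i => if o.2 i = true then (N i)ᶜ else N i with hB
  have hBgen : ∀ i : Fin m, MeasurableSet[MeasurableSpace.generateFrom {N i}] (B i) := by
    intro i
    have h1 : MeasurableSet[MeasurableSpace.generateFrom {N i}] (N i) :=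
      MeasurableSpace.measurableSet_generateFrom rfl
    simp only [hB]
    split_ifs
    · exact h1.compl
    · exact h1
  have hBprod : μ (⋂ i, B i) = ∏ i, μ (B i) := by
    have h1 : iIndep (fun i : Fin m => MeasurableSpace.generateFrom {N i}) μ := hind'
    exact h1.meas_iInter hBgen
  have hBi : ∀ i : Fin m, μ (B i) = ENNReal.ofReal (if o.2 i = true then r i else 1 - r i) := by
    intro i
    simp only [hB]
    split_ifs with h
    · rw [prob_compl_eq_one_sub (hNm' i), hNi, ← ENNReal.ofReal_one,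
        ← ENNReal.ofReal_sub _ (by linarith [(hr i).2])]
      congr 1; ring
    · exact hNi i
  have hBm : MeasurableSet[⨆ i ∈ S2, inputSigma X.init X.gap X.coin i] (⋂ i, B i) := by
    refine MeasurableSet.iInter fun i => ?_
    simp only [hB]
    split_ifs
    · exact (hNm i).compl
    · exact hNm i
  -- the spin
  set A : Set X.Ω := {ω | X.init v ω = o.1} with hA
  have hAm : MeasurableSet[⨆ i ∈ S1, inputSigma X.init X.gap X.coin i] A := by
    have h1 : MeasurableSet[MeasurableSpace.comap (X.init v) ⊤] A :=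
      ⟨{o.1}, trivial, by ext ω; simp [hA]⟩
    have h2 : MeasurableSpace.comap (X.init v) ⊤ ≤
        ⨆ i ∈ S1, inputSigma X.init X.gap X.coin i :=
      le_iSup₂_of_le (f := fun i (_ : i ∈ S1) => inputSigma X.init X.gap X.coin i)
        (Sum.inl v) rfl le_rfl
    exact h2 _ h1
  have hAμ : μ A = ENNReal.ofReal (if o.1 = true then p else 1 - p) := by
    cases ho : o.1 with
    | true =>
      simp only [hA, ho, if_true]
      exact X.law_init v
    | false =>
      have h1 : A = {ω | X.init v ω = true}ᶜ := by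
        ext ω
        simp [hA, ho]
      have h2 : MeasurableSet {ω | X.init v ω = true} :=
        X.measurable_init v (MeasurableSet.singleton true)
      rw [h1, prob_compl_eq_one_sub h2, hμ, X.law_init v, ← ENNReal.ofReal_one,
        ← ENNReal.ofReal_sub _ hp0]
      simp
  have hAB : μ (A ∩ ⋂ i, B i) = μ A * μ (⋂ i, B i) := by
    have h1 := indep_iSup_of_disjoint (fun i => X.inputSigma_le i) X.indep hdisj
    exact (Indep_iff _ _ _).1 h1 _ _ hAm hBm
  have hev : {ω | ownX X m (slotT r) v ω = o} = A ∩ ⋂ i, B i := by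
    ext ω
    simp only [Set.mem_ofPred_eq, Set.mem_inter_iff, Set.mem_iInter, hA, hB]
    unfold ownX ownDat
    rw [Prod.ext_iff]
    refine and_congr Iff.rfl ?_
    rw [funext_iff]
    refine forall_congr' fun i => ?_
    cases hoi : o.2 i with
    | true =>
      simp [hN, hT]
    | false =>
      simp [hN, hT]
  rw [hev, hAB, hAμ, hBprod]
  unfold wtOwn
  rw [ENNReal.ofReal_mul (by split_ifs <;> linarith), ENNReal.ofReal_prod_of_nonneg
    (fun i _ => by split_ifs <;> linarith [(hr i).1, (hr i).2])]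
  congr 1
  exact Finset.prod_congr rfl fun i _ => hBi i

end Pool.Agent.H18.GL
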