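import Pool.Agent.H18.GL.Defs

/-!
# Theory half: the statements of the modules, as `Prop`s
-/

set_option autoImplicit false

open MeasureTheory ProbabilityTheory Filter
open scoped ENNReal Topology
open Pool.Agent.H41.GL

namespace Pool.Agent.H18.GL

/-- M1a. In a 5-regular graph the neighbours other than the parent can be enumerated by `Fin 4`. -/
def StKids : Prop :=
  ∀ (V : Type) (G : SimpleGraph V) (_ : G.LocallyFinite), G.IsRegularOfDegree 5 →
    ∃ ch : V → V → Fin 4 → V, Kids G ch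

/-- M1b. The real validity lemma. -/
def StValid : Prop :=
  ∀ (V : Type) (G : SimpleGraph V) (_ : G.LocallyFinite), G.IsRegularOfDegree 5 →
    ∀ (ch : V → V → Fin 4 → V), Kids G ch →
    ∀ (init : V → Bool) (gap : V → ℕ → ℝ) (coin : V → ℕ → Bool) (σ : V → ℝ → Bool),
      Compat G init gap coin σ → (∀ v, GoodClock (gap v)) →
    ∀ (m : ℕ) (T : ℕ → ℝ), T 0 = 0 → Monotone T →
    ∀ (R : ℕ) (u v : V), G.Adj u v → ∀ k c l : ℕ,
      Valid m R (dat m T ch init gap R u v) k c l →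
      ∀ s : ℝ, (l ≤ m → s ≤ T l) → (k ≤ m → ∀ t, T k ≤ t → t < s → σ u t = true) →
        (∀ t, T c ≤ t → t < s → σ v t = true) ∨ Chain ch gap R u v s

/-- M1c. The root lemma: a root with initial spin `+`, no ring up to time `T m`, and three children
justified to be `+` for ever, stays `+`. -/
def StRoot : Prop :=
  ∀ (V : Type) (G : SimpleGraph V) (_ : G.LocallyFinite), G.IsRegularOfDegree 5 →
    ∀ (ch : V → V → Fin 4 → V), Kids G ch →
    ∀ (init : V → Bool) (gap : V → ℕ → ℝ) (coin : V → ℕ → Bool) (σ : V → ℝ → Bool),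
      Compat G init gap coin σ → (∀ v, GoodClock (gap v)) →
    ∀ (m : ℕ) (T : ℕ → ℝ), T 0 = 0 → Monotone T →
    ∀ (R : ℕ) (u o : V), G.Adj u o → init o = true →
      (∀ i : Fin m, (dat m T ch init gap (R + 1) u o).1.2 i = false) →
      (∀ w : Fin 4, w ≠ 3 → ∃ c, Valid m R (dat m T ch init gap R o (ch u o w)) 0 c (m + 1)) →
      ∀ s : ℝ, (∀ t, 0 ≤ t → t < s → σ o t = true) ∨ Chain ch gap (R + 1) u o s

/-- M2a. Chains are seen by the discretised data. -/
def StChainGC : Prop :=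
  ∀ (V : Type) (ch : V → V → Fin 4 → V) (init : V → Bool) (gap : V → ℕ → ℝ),
    (∀ v, GoodClock (gap v)) → ∀ (m : ℕ) (h : ℝ), 0 < h →
    ∀ (R : ℕ) (u v : V) (i : ℕ) (s : ℝ), i ≤ m → s ≤ i * h → Chain ch gap R u v s →
      GC m R (dat m (fun i => i * h) ch init gap R u v) i

open Classical in
/-- M2b. The discretised chain event has small probability. -/
def StGCBound : Prop :=
  ∀ (m : ℕ) (p h : ℝ), 0 ≤ p → p ≤ 1 → 0 < h → ∀ (R i : ℕ), i ≤ m →
    ∑ d : D m R, wt m p (fun _ => 1 - Real.exp (-h)) R d * (if GC m R d i then 1 else 0)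
      ≤ 2 ^ i * (8 * h) ^ R

/-- M3. Void probabilities of a Poisson clock with exponential waiting times. -/
def StVoid : Prop :=
  ∀ (Ω : Type) (_ : MeasurableSpace Ω) (P : Measure Ω) (_ : IsProbabilityMeasure P)
    (g : ℕ → Ω → ℝ), (∀ k, Measurable (g k)) → (∀ k, P.map (g k) = expMeasure 1) →
    iIndepFun g P → ∀ τ : ℕ → ℝ, 0 ≤ τ 0 → Monotone τ → ∀ I : Finset ℕ,
      P {ω | ∀ i ∈ I, ∀ k, ringTime (fun j => g j ω) k ∉ Set.Ioc (τ i) (τ (i + 1))}
        = ENNReal.ofReal (Real.exp (-∑ i ∈ I, (τ (i + 1) - τ i)))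

/-- The own data of `v` in a realisation. -/
noncomputable def ownX {V : Type} {G : SimpleGraph V} [G.LocallyFinite] {p : ℝ} (X : Dynamics G p)
    (m : ℕ) (T : ℕ → ℝ) (v : V) (ω : X.Ω) : Own m :=
  ownDat m T (X.init v ω) (fun k => X.gap v k ω)

/-- M4. Law of the own data. -/
def StOwnLaw : Prop :=
  ∀ (V : Type) (G : SimpleGraph V) (_ : G.LocallyFinite) (p : ℝ), 0 ≤ p → p ≤ 1 →
    ∀ (X : Dynamics G p) (m : ℕ) (r : ℕ → ℝ), (∀ i, 0 < r i ∧ r i < 1) → ∀ (v : V) (o : Own m),
      X.P {ω | ownX X m (slotT r) v ω = o} = ENNReal.ofReal (wtOwn m p r o)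

/-- M5. The own data of different vertices are independent (finite form), and measurable. -/
def StOwnIndep : Prop :=
  ∀ (V : Type) (G : SimpleGraph V) (_ : G.LocallyFinite) (p : ℝ) (X : Dynamics G p) (m : ℕ)
    (T : ℕ → ℝ) (F : Finset V) (f : V → Own m),
      (∀ v o, MeasurableSet[X.mΩ] {ω | ownX X m T v ω = o}) ∧
      X.P {ω | ∀ v ∈ F, ownX X m T v ω = f v} = ∏ v ∈ F, X.P {ω | ownX X m T v ω = f v}

/-- The vertices of the depth-`R` branch. -/
def InBranch {V : Type} (ch : V → V → Fin 4 → V) : ℕ → V → V → V → Prop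
  | 0, _, _, _ => False
  | R + 1, u, v, x => x = v ∨ ∃ w : Fin 4, InBranch ch R v (ch u v w) x

/-- M6a. In a tree, branches are disjoint. -/
def StBranch : Prop :=
  ∀ (V : Type) (G : SimpleGraph V), G.IsTree → ∀ (ch : V → V → Fin 4 → V), Kids G ch →
    ∀ (R : ℕ) (u v : V), G.Adj u v →
      (∀ w : Fin 4, ¬ InBranch ch R v (ch u v w) v) ∧
      ∀ (w w' : Fin 4) (x : V), InBranch ch R v (ch u v w) x → InBranch ch R v (ch u v w') x → w = w'

/-- M6b. A connected locally finite graph is countable. -/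
def StCountable : Prop :=
  ∀ (V : Type) (G : SimpleGraph V) (_ : G.LocallyFinite), G.Connected → Countable V

/-- The data of a branch in a realisation. -/
noncomputable def datX {V : Type} {G : SimpleGraph V} [G.LocallyFinite] {p : ℝ} (X : Dynamics G p)
    (m : ℕ) (T : ℕ → ℝ) (ch : V → V → Fin 4 → V) (R : ℕ) (u v : V) (ω : X.Ω) : D m R :=
  dat m T ch (fun v => X.init v ω) (fun v k => X.gap v k ω) R u v

/-- M7. Law of the data of a branch. -/
def StDatLaw : Prop :=
  ∀ (V : Type) (G : SimpleGraph V) (_ : G.LocallyFinite), G.IsTree →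
    ∀ (ch : V → V → Fin 4 → V), Kids G ch → ∀ (p : ℝ), 0 ≤ p → p ≤ 1 →
    ∀ (X : Dynamics G p) (m : ℕ) (r : ℕ → ℝ), (∀ i, 0 < r i ∧ r i < 1) →
    ∀ (R : ℕ) (u v : V), G.Adj u v → ∀ d : D m R,
      MeasurableSet[X.mΩ] {ω | datX X m (slotT r) ch R u v ω = d} ∧
      X.P {ω | datX X m (slotT r) ch R u v ω = d} = ENNReal.ofReal (wt m p r R d)

/-- M8. Almost surely all clocks are good. -/
def StGood : Prop :=
  ∀ (V : Type) (G : SimpleGraph V) (_ : G.LocallyFinite) (p : ℝ) (X : Dynamics G p),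
    Countable V → ∀ᵐ ω ∂X.P, ∀ v, GoodClock (fun k => X.gap v k ω)

/-- M9. For good clocks a compatible trajectory exists (deterministic). -/
def StExists : Prop :=
  ∀ (V : Type) (G : SimpleGraph V) (_ : G.LocallyFinite) (init : V → Bool) (gap : V → ℕ → ℝ)
    (coin : V → ℕ → Bool), (∀ v, GoodClock (gap v)) → ∃ σ : V → ℝ → Bool, Compat G init gap coin σ

/-- M10. The dynamics exists on every countable locally finite graph, for every density. -/
def StDynamics : Prop :=
  ∀ (V : Type) (G : SimpleGraph V) (_ : G.LocallyFinite), Countable V →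
    ∀ p : ℝ, 0 ≤ p → p ≤ 1 → Nonempty (Dynamics G p)

/-- M11. The 5-regular tree exists. -/
def StTree : Prop :=
  ∃ (V : Type) (G : SimpleGraph V) (_ : G.LocallyFinite), G.IsTree ∧ G.IsRegularOfDegree 5 ∧
    Nonempty V

/-- M12a. Strong form of the conclusion: for every realisation on every 5-regular tree with
`p ≥ p0`, it is not almost sure that the spin of `o` converges to `-1`. -/
def StStrong : Prop :=
  CavityMain → ∃ p0 : ℝ, p0 < 1 / 2 ∧ ∀ (V : Type) (G : SimpleGraph V) (_ : G.LocallyFinite),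
    G.IsTree → G.IsRegularOfDegree 5 → ∀ p : ℝ, p0 ≤ p → p ≤ 1 → ∀ (o : V) (X : Dynamics G p),
      ¬ ∀ᵐ ω ∂X.P, FixMinus X o ω

/-- M12b. The final conclusion. -/
def StFinal : Prop := CavityMain → pc 5 < 1 / 2

end Pool.Agent.H18.GL
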