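import Pool.Agent.H18.GL.Stmts

/-!
# The 5-regular tree exists

Vertices are the lists over `Fin 5` without two equal consecutive letters; a list is adjacent to its
tail.
-/

set_option autoImplicit false

namespace Pool.Agent.H18.GL

namespace TreeEx

/-- Reduced words. -/
def RW : Type := {l : List (Fin 5) // l.IsChain (· ≠ ·)}

/-- The tree. -/
def TG : SimpleGraph RW where
  Adj v w := (∃ a, v.1 = a :: w.1) ∨ (∃ a, w.1 = a :: v.1)
  symm := by
    constructor
    intro v w h
    rcases h with h | h
    · exact Or.inr h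
    · exact Or.inl h
  loopless := ⟨by
    intro v h
    rcases h with ⟨a, h⟩ | ⟨a, h⟩ <;>
    · have := congrArg List.length h
      simp at this⟩

lemma adj_def (v w : RW) : TG.Adj v w ↔ (∃ a, v.1 = a :: w.1) ∨ (∃ a, w.1 = a :: v.1) := Iff.rfl

/-- The neighbour of `v` in direction `a`. -/
def nbr : (v : List (Fin 5)) → Fin 5 → List (Fin 5)
  | [], a => [a]
  | b :: t, a => if a = b then t else a :: b :: t

lemma nbr_chain (v : List (Fin 5)) (hv : v.IsChain (· ≠ ·)) (a : Fin 5) :
    (nbr v a).IsChain (· ≠ ·) := by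
  cases v with
  | nil => simp [nbr]
  | cons b t =>
    by_cases h : a = b
    · simp only [nbr, h, if_true]
      exact hv.tail
    · simp only [nbr, h, if_false]
      exact List.isChain_cons_cons.2 ⟨h, hv⟩

lemma nbr_adj (v : List (Fin 5)) (a : Fin 5) :
    (∃ c, v = c :: nbr v a) ∨ (∃ c, nbr v a = c :: v) := by
  cases v with
  | nil => right; exact ⟨a, rfl⟩
  | cons b t =>
    by_cases h : a = b
    · left; exact ⟨b, by simp [nbr, h]⟩
    · right; exact ⟨a, by simp [nbr, h]⟩

lemma nbr_inj (v : List (Fin 5)) : Function.Injective (nbr v) := by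
  intro a a' h
  cases v with
  | nil => simpa [nbr] using h
  | cons b t =>
    by_cases h1 : a = b <;> by_cases h2 : a' = b
    · rw [h1, h2]
    · exfalso
      simp only [nbr, h1, h2, if_true, if_false] at h
      have := congrArg List.length h
      simp at this
      omega
    · exfalso
      simp only [nbr, h1, h2, if_true, if_false] at h
      have := congrArg List.length h
      simp at this
      omega
    · simp only [nbr, h1, h2, if_false] at h
      simpa using h

lemma nbr_surj (v w : List (Fin 5)) (hw : w.IsChain (· ≠ ·))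
    (h : (∃ c, v = c :: w) ∨ (∃ c, w = c :: v)) : ∃ a, nbr v a = w := by
  rcases h with ⟨c, rfl⟩ | ⟨c, rfl⟩
  · exact ⟨c, by simp [nbr]⟩
  · cases v with
    | nil => exact ⟨c, rfl⟩
    | cons b t =>
      have : c ≠ b := (List.isChain_cons_cons.1 hw).1
      exact ⟨c, by simp [nbr, this]⟩

/-- Neighbours are indexed by `Fin 5`. -/
noncomputable def eqv (v : RW) : Fin 5 ≃ TG.neighborSet v :=
  Equiv.ofBijective (fun a => ⟨⟨nbr v.1 a, nbr_chain v.1 v.2 a⟩, nbr_adj v.1 a⟩) (by
    constructor
    · intro a a' h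
      have h1 := congrArg (fun x : TG.neighborSet v => x.1.1) h
      exact nbr_inj v.1 h1
    · rintro ⟨w, hw⟩
      obtain ⟨a, ha⟩ := nbr_surj v.1 w.1 w.2 hw
      exact ⟨a, Subtype.ext (Subtype.ext ha)⟩)

noncomputable instance locFin : TG.LocallyFinite := fun v => Fintype.ofEquiv (Fin 5) (eqv v)

lemma regular : TG.IsRegularOfDegree 5 := by
  intro v
  rw [← TG.card_neighborSet_eq_degree v]
  have := Fintype.card_congr (eqv v)
  rw [Fintype.card_fin] at this
  exact this.symm

/-- The empty word. -/
def root : RW := ⟨[], by simp⟩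

lemma reach (l : List (Fin 5)) (hl : l.IsChain (· ≠ ·)) : TG.Reachable ⟨l, hl⟩ root := by
  induction l with
  | nil => exact SimpleGraph.Reachable.refl _
  | cons b t ih =>
    have h1 : TG.Adj (⟨b :: t, hl⟩ : RW) ⟨t, hl.tail⟩ := Or.inl ⟨b, rfl⟩
    exact h1.reachable.trans (ih hl.tail)

lemma connected : TG.Connected := by
  haveI : Nonempty RW := ⟨root⟩
  refine SimpleGraph.Connected.mk ?_
  intro v w
  exact (reach v.1 v.2).trans (reach w.1 w.2).symm

lemma acyclic : TG.IsAcyclic := by
  classical
  intro u c hc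
  -- a vertex of maximal length on the cycle
  obtain ⟨v, hv, hmax⟩ := c.support.toFinset.exists_max_image (fun x : RW => x.1.length)
    ⟨u, by simp⟩
  have hv' : v ∈ c.support := by simpa using hv
  have hc' : (c.rotate v hv').IsCycle := hc.rotate hv'
  have hmem : ∀ x, x ∈ (c.rotate v hv').support → x.1.length ≤ v.1.length := by
    intro x hx
    apply hmax
    rw [List.mem_toFinset]
    rwa [SimpleGraph.Walk.mem_support_rotate_iff] at hx
  have key : ∀ x, x ∈ (c.rotate v hv').support → TG.Adj v x → ∃ a, v.1 = a :: x.1 := by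
    intro x hx hadj
    rcases hadj with h | ⟨a, h⟩
    · exact h
    · exfalso
      have h1 := hmem x hx
      rw [h, List.length_cons] at h1
      omega
  have hnil := hc'.not_nil
  obtain ⟨a, ha⟩ := key _ (SimpleGraph.Walk.getVert_mem_support _ 1)
    ((c.rotate v hv').adj_snd hnil)
  obtain ⟨b, hb⟩ := key _ (SimpleGraph.Walk.getVert_mem_support _ _)
    ((c.rotate v hv').adj_penultimate hnil).symm
  apply hc'.snd_ne_penultimate
  rw [ha] at hb
  exact Subtype.ext (List.cons.inj hb).2

end TreeEx

theorem stTree : StTree :=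
  ⟨TreeEx.RW, TreeEx.TG, TreeEx.locFin, ⟨TreeEx.connected, TreeEx.acyclic⟩, TreeEx.regular,
    ⟨TreeEx.root⟩⟩

end Pool.Agent.H18.GL
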