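import Pool.Agent.H18.GL.Stmts

/-!
MODULE GLT-VOID (helper19): void probabilities of a Poisson clock.
-/

set_option autoImplicit false

open MeasureTheory ProbabilityTheory Filter
open scoped ENNReal Topology

namespace Pool.Agent.H18.GL

namespace Void

/-- The length of the part of the slots to the right of `y`. -/
noncomputable def rem (τ : ℕ → ℝ) (I : Finset ℕ) (y : ℝ) : ℝ :=
  ∑ i ∈ I, (max (τ (i + 1)) y - max (τ i) y)

/-- The union of the slots. -/
def SS (τ : ℕ → ℝ) (I : Finset ℕ) : Set ℝ := {y | ∃ i ∈ I, y ∈ Set.Ioc (τ i) (τ (i + 1))}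

theorem measurableSet_SS (τ : ℕ → ℝ) (I : Finset ℕ) : MeasurableSet (SS τ I) := by
  have : SS τ I = ⋃ i ∈ I, Set.Ioc (τ i) (τ (i + 1)) := by
    ext y
    simp only [SS, Set.mem_ofPred_eq, Set.mem_iUnion, exists_prop]
  rw [this]
  exact Finset.measurableSet_biUnion _ fun i _ => measurableSet_Ioc

variable {τ : ℕ → ℝ} {I : Finset ℕ}

theorem rem_nonneg (hτ : Monotone τ) (y : ℝ) : 0 ≤ rem τ I y :=
  Finset.sum_nonneg fun i _ => sub_nonneg.mpr (max_le_max_right y (hτ (Nat.le_succ i)))

theorem continuous_rem : Continuous (rem τ I) := by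
  unfold rem
  fun_prop

theorem rem_of_ge {L y : ℝ} (hL : ∀ i ∈ I, τ (i + 1) ≤ L) (hτ : Monotone τ) (hy : L ≤ y) :
    rem τ I y = 0 := by
  refine Finset.sum_eq_zero fun i hi => ?_
  have h1 : τ (i + 1) ≤ y := (hL i hi).trans hy
  have h2 : τ i ≤ y := (hτ (Nat.le_succ i)).trans h1
  rw [max_eq_right h1, max_eq_right h2, sub_self]

open Classical in
theorem hasDerivAt_max {c y : ℝ} (h : y ≠ c) :
    HasDerivAt (fun y => max c y) (if c < y then 1 else 0) y := by
  rcases lt_or_gt_of_ne h with h1 | h1
  · rw [if_neg (not_lt.mpr h1.le)]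
    have : (fun y => max c y) =ᶠ[𝓝 y] fun _ => c := by
      filter_upwards [Iio_mem_nhds h1] with z hz
      exact max_eq_left (le_of_lt hz)
    exact (hasDerivAt_const y c).congr_of_eventuallyEq this
  · rw [if_pos h1]
    have : (fun y => max c y) =ᶠ[𝓝 y] fun z => z := by
      filter_upwards [Ioi_mem_nhds h1] with z hz
      exact max_eq_right (le_of_lt hz)
    exact (hasDerivAt_id y).congr_of_eventuallyEq this

open Classical in
theorem hasDerivAt_rem (hτ : Monotone τ) {y : ℝ} (h : ∀ i, y ≠ τ i) :
    HasDerivAt (rem τ I) (-(if y ∈ SS τ I then 1 else 0)) y := by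
  have h1 : HasDerivAt (rem τ I)
      (∑ i ∈ I, ((if τ (i + 1) < y then (1 : ℝ) else 0) - (if τ i < y then 1 else 0))) y := by
    unfold rem
    refine HasDerivAt.fun_sum fun i _ => ?_
    exact (hasDerivAt_max (h (i + 1))).sub (hasDerivAt_max (h i))
  have h2 : (∑ i ∈ I, ((if τ (i + 1) < y then (1 : ℝ) else 0) - (if τ i < y then 1 else 0))) =
      -(if y ∈ SS τ I then 1 else 0) := by
    have h3 : ∀ i ∈ I, ((if τ (i + 1) < y then (1 : ℝ) else 0) - (if τ i < y then 1 else 0)) =
        -(if y ∈ Set.Ioc (τ i) (τ (i + 1)) then 1 else 0) := by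
      intro i _
      have h4 := hτ (Nat.le_succ i)
      by_cases h5 : τ (i + 1) < y
      · have h6 : τ i < y := lt_of_le_of_lt h4 h5
        have h7 : ¬ y ∈ Set.Ioc (τ i) (τ (i + 1)) := fun h => absurd h.2 (not_le.mpr h5)
        rw [if_pos h5, if_pos h6, if_neg h7]
        norm_num
      · by_cases h6 : τ i < y
        · have h7 : y ∈ Set.Ioc (τ i) (τ (i + 1)) := ⟨h6, not_lt.mp h5⟩
          rw [if_neg h5, if_pos h6, if_pos h7]
          norm_num
        · have h7 : ¬ y ∈ Set.Ioc (τ i) (τ (i + 1)) := fun h => absurd h.1 h6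
          rw [if_neg h5, if_neg h6, if_neg h7]
          norm_num
    rw [Finset.sum_congr rfl h3, Finset.sum_neg_distrib]
    congr 1
    by_cases hy : y ∈ SS τ I
    · obtain ⟨i, hi, hyi⟩ := hy
      rw [if_pos ⟨i, hi, hyi⟩]
      rw [Finset.sum_eq_single_of_mem i hi, if_pos hyi]
      intro j _ hji
      rw [if_neg]
      intro hyj
      rcases lt_or_gt_of_ne hji with h8 | h8
      · have h9 : τ (j + 1) ≤ τ i := hτ h8
        have h10 := hyj.2
        have h11 := hyi.1
        linarith
      · have h9 : τ (i + 1) ≤ τ j := hτ h8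
        have h10 := hyi.2
        have h11 := hyj.1
        linarith
    · rw [if_neg hy]
      refine Finset.sum_eq_zero fun i hi => ?_
      rw [if_neg]
      exact fun hyi => hy ⟨i, hi, hyi⟩
  rw [← h2]
  exact h1

/-- The void probability seen from `y`. -/
noncomputable def U (τ : ℕ → ℝ) (I : Finset ℕ) (y : ℝ) : ℝ := Real.exp (-rem τ I y)

theorem U_pos (y : ℝ) : 0 < U τ I y := Real.exp_pos _

theorem U_le_one (hτ : Monotone τ) (y : ℝ) : U τ I y ≤ 1 := by
  unfold U
  rw [Real.exp_le_one_iff]
  linarith [rem_nonneg (I := I) hτ y]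

theorem continuous_U : Continuous (U τ I) := by
  unfold U
  exact Real.continuous_exp.comp continuous_rem.neg

open Classical in
theorem hasDerivAt_U (hτ : Monotone τ) {y : ℝ} (h : ∀ i, y ≠ τ i) :
    HasDerivAt (U τ I) (if y ∈ SS τ I then U τ I y else 0) y := by
  have h1 := ((hasDerivAt_rem (I := I) hτ h).neg).exp
  refine h1.congr_deriv ?_
  by_cases hy : y ∈ SS τ I
  · simp [hy, U]
  · simp [hy]

open Classical in
theorem measurable_gg (x : ℝ) :
    Measurable (fun e : ℝ => if x + e ∈ SS τ I then (0 : ℝ) else U τ I (x + e)) := by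
  refine Measurable.ite ?_ measurable_const ?_
  · exact (measurable_const.add measurable_id) (measurableSet_SS τ I)
  · exact (continuous_U.measurable).comp (measurable_const.add measurable_id)

open Classical in
theorem integral_Ioi (hτ : Monotone τ) (x : ℝ) :
    ∫ e in Set.Ioi (0 : ℝ), Real.exp (-e) * (if x + e ∈ SS τ I then (0 : ℝ) else U τ I (x + e))
      = U τ I x := by
  set G : ℝ → ℝ := fun e => Real.exp (-e) * (if x + e ∈ SS τ I then (0 : ℝ) else U τ I (x + e))
    with hG
  set K : ℝ → ℝ := fun e => -(Real.exp (-e) * U τ I (x + e)) with hK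
  have hGm : Measurable G := by
    refine Measurable.mul ?_ (measurable_gg x)
    exact (Real.measurable_exp).comp measurable_neg
  have hGb : ∀ e, ‖G e‖ ≤ Real.exp (-e) := by
    intro e
    rw [hG]
    simp only [norm_mul, Real.norm_eq_abs, abs_of_pos (Real.exp_pos _)]
    have : |if x + e ∈ SS τ I then (0 : ℝ) else U τ I (x + e)| ≤ 1 := by
      split_ifs
      · simp
      · rw [abs_of_pos (U_pos _)]
        exact U_le_one hτ _
    nlinarith [Real.exp_pos (-e), this]
  have hexp : IntegrableOn (fun e : ℝ => Real.exp (-e)) (Set.Ioi 0) := by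
    have := exp_neg_integrableOn_Ioi 0 (show (0 : ℝ) < 1 by norm_num)
    simpa using this
  have hGi : IntegrableOn G (Set.Ioi 0) :=
    Integrable.mono' hexp hGm.aestronglyMeasurable (Eventually.of_forall hGb)
  have h1 := intervalIntegral_tendsto_integral_Ioi 0 hGi (tendsto_id (x := atTop))
  have hKc : Continuous K := by
    have h2 : Continuous (fun e : ℝ => U τ I (x + e)) :=
      continuous_U.comp (continuous_const.add continuous_id)
    exact (((Real.continuous_exp.comp continuous_neg).mul h2)).neg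
  have h3 : ∀ M : ℝ, 0 ≤ M → ∫ e in (0 : ℝ)..M, G e = K M - K 0 := by
    intro M hM
    refine MeasureTheory.integral_eq_of_hasDerivAt_off_countable K G
      (s := Set.range fun i => τ i - x) (Set.countable_range _) hKc.continuousOn ?_ ?_
    · intro e he
      have h4 : ∀ i, x + e ≠ τ i := by
        intro i hi
        exact he.2 ⟨i, by show τ i - x = e; linarith⟩
      have h5 : HasDerivAt (fun e : ℝ => U τ I (x + e))
          (if x + e ∈ SS τ I then U τ I (x + e) else 0) e :=
        HasDerivAt.comp_const_add x e (hasDerivAt_U hτ h4)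
      have h6 : HasDerivAt (fun e : ℝ => Real.exp (-e)) (-Real.exp (-e)) e := by
        have := (hasDerivAt_neg e).exp
        simpa using this
      have h7 := (h6.mul h5).neg
      refine h7.congr_deriv ?_
      rw [hG]
      by_cases hy : x + e ∈ SS τ I
      · simp only [hy, if_true]
        ring
      · simp only [hy, if_false]
        ring
    · rw [intervalIntegrable_iff_integrableOn_Ioc_of_le hM]
      exact hGi.mono_set Set.Ioc_subset_Ioi_self
  have h8 : Tendsto (fun M : ℝ => ∫ e in (0 : ℝ)..M, G e) atTop (𝓝 (0 - K 0)) := by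
    have h9 : Tendsto K atTop (𝓝 0) := by
      rw [tendsto_zero_iff_norm_tendsto_zero]
      have h10 : Tendsto (fun e : ℝ => Real.exp (-e)) atTop (𝓝 0) :=
        Real.tendsto_exp_neg_atTop_nhds_zero
      refine squeeze_zero (fun _ => norm_nonneg _) (fun e => ?_) h10
      rw [hK]
      simp only [norm_neg, norm_mul, Real.norm_eq_abs, abs_of_pos (Real.exp_pos _),
        abs_of_pos (U_pos _)]
      nlinarith [Real.exp_pos (-e), U_le_one (I := I) hτ (x + e)]
    refine (h9.sub_const (K 0)).congr' ?_
    filter_upwards [eventually_ge_atTop 0] with M hM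
    exact (h3 M hM).symm
  have h11 := tendsto_nhds_unique h1 h8
  rw [h11, hK]
  simp

theorem expMeasure_density : expMeasure 1 =
    volume.withDensity (fun e : ℝ => ENNReal.ofReal (exponentialPDFReal 1 e)) := rfl

theorem exponentialPDFReal_one (e : ℝ) :
    exponentialPDFReal 1 e = if 0 ≤ e then Real.exp (-e) else 0 := by
  rw [exponentialPDFReal, gammaPDFReal]
  simp

open Classical in
theorem integral_exp (hτ : Monotone τ) (x : ℝ) :
    ∫ e, (if x + e ∈ SS τ I then (0 : ℝ) else U τ I (x + e)) ∂(expMeasure 1) = U τ I x := by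
  rw [← integral_Ioi hτ x, expMeasure_density,
    integral_withDensity_eq_integral_toReal_smul
      (by
        refine ENNReal.measurable_ofReal.comp ?_
        exact measurable_exponentialPDFReal 1)
      (Eventually.of_forall fun _ => ENNReal.ofReal_lt_top)]
  rw [← integral_Ici_eq_integral_Ioi, ← integral_indicator measurableSet_Ici]
  refine integral_congr_ae (Eventually.of_forall fun e => ?_)
  simp only [smul_eq_mul]
  rw [ENNReal.toReal_ofReal (exponentialPDFReal_nonneg one_pos e), exponentialPDFReal_one]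
  by_cases he : 0 ≤ e
  · rw [Set.indicator_of_mem (show e ∈ Set.Ici (0 : ℝ) from he), if_pos he]
  · rw [Set.indicator_of_notMem (show e ∉ Set.Ici (0 : ℝ) from he), if_neg he, zero_mul]

theorem exp_Iic (c : ℝ) : ((expMeasure 1) (Set.Iic c)).toReal =
    if 0 ≤ c then 1 - Real.exp (-c) else 0 := by
  have h1 := cdf_expMeasure_eq (show (0 : ℝ) < 1 by norm_num) c
  have := isProbabilityMeasure_expMeasure (show (0 : ℝ) < 1 by norm_num)
  rw [cdf_eq_real] at h1
  rw [one_mul] at h1
  exact h1

theorem ae_nonneg : ∀ᵐ e ∂(expMeasure 1), 0 ≤ e := by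
  have := isProbabilityMeasure_expMeasure (show (0 : ℝ) < 1 by norm_num)
  have h1 := exp_Iic 0
  rw [if_pos le_rfl] at h1
  simp only [neg_zero, Real.exp_zero, sub_self] at h1
  have h2 : (expMeasure 1) (Set.Iic 0) = 0 := by
    rw [ENNReal.toReal_eq_zero_iff] at h1
    rcases h1 with h1 | h1
    · exact h1
    · exact absurd h1 (measure_ne_top _ _)
  rw [ae_iff]
  refine measure_mono_null ?_ h2
  intro e he
  simp only [Set.mem_ofPred_eq, not_le] at he
  exact he.le

/-! ### The probabilistic part -/

variable {Ω : Type} [MeasurableSpace Ω] {P : Measure Ω} [IsProbabilityMeasure P]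

theorem measurable_ringTime (k : ℕ) : Measurable (fun h : ℕ → ℝ => ringTime h k) := by
  unfold ringTime
  exact Finset.measurable_sum _ fun i _ => measurable_pi_apply i

theorem ringTime_succ (h : ℕ → ℝ) (k : ℕ) :
    ringTime h (k + 1) = h 0 + ringTime (fun j => h (j + 1)) k := by
  unfold ringTime
  rw [Finset.sum_range_succ']
  ring

theorem indep_head_tail {g : ℕ → Ω → ℝ} (hg : ∀ k, Measurable (g k)) (hi : iIndepFun g P) :
    IndepFun (g 0) (fun ω j => g (j + 1) ω) P := by
  have h1 : iIndep (fun k => MeasurableSpace.comap (g k) inferInstance) P := hi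
  have h2 := indep_iSup_of_disjoint (fun k => (hg k).comap_le) h1
    (S := {0}) (T := {k | 1 ≤ k}) (by
      rw [Set.disjoint_left]
      rintro k hk hk'
      rw [Set.mem_singleton_iff] at hk
      simp only [Set.mem_ofPred_eq] at hk'
      omega)
  refine indep_of_indep_of_le_left (indep_of_indep_of_le_right h2 ?_) ?_
  · have h3 : MeasurableSpace.comap (fun ω j => g (j + 1) ω)
        (MeasurableSpace.pi : MeasurableSpace (ℕ → ℝ)) =
        ⨆ j, MeasurableSpace.comap (g (j + 1)) inferInstance := by
      rw [MeasurableSpace.pi, MeasurableSpace.comap_iSup]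
      refine iSup_congr fun j => ?_
      rw [MeasurableSpace.comap_comp]
      rfl
    rw [h3]
    refine iSup_le fun j => ?_
    exact le_iSup₂_of_le (j + 1) (by show 1 ≤ j + 1; omega) le_rfl
  · exact le_iSup₂_of_le 0 (Set.mem_singleton 0) le_rfl

/-- The first `n` rings, shifted by `x`, avoid the slots. -/
def AA (τ : ℕ → ℝ) (I : Finset ℕ) (n : ℕ) (x : ℝ) : Set (ℕ → ℝ) :=
  {h | ∀ k < n, x + ringTime h k ∉ SS τ I}

theorem measurableSet_AA2 (τ : ℕ → ℝ) (I : Finset ℕ) (n : ℕ) (x : ℝ) :
    MeasurableSet {q : ℝ × (ℕ → ℝ) | q.2 ∈ AA τ I n (x + q.1)} := by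
  have : {q : ℝ × (ℕ → ℝ) | q.2 ∈ AA τ I n (x + q.1)} =
      ⋂ k ∈ Finset.range n, (fun q : ℝ × (ℕ → ℝ) => x + q.1 + ringTime q.2 k) ⁻¹' (SS τ I)ᶜ := by
    ext q
    simp [AA]
  rw [this]
  refine Finset.measurableSet_biInter _ fun k _ => ?_
  refine (Measurable.add ?_ ?_) (measurableSet_SS τ I).compl
  · exact measurable_const.add measurable_fst
  · exact (measurable_ringTime k).comp measurable_snd

theorem measurableSet_AA (τ : ℕ → ℝ) (I : Finset ℕ) (n : ℕ) (x : ℝ) :
    MeasurableSet (AA τ I n x) := by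
  have h1 := measurableSet_AA2 τ I n x
  have h2 : Measurable (fun h : ℕ → ℝ => ((0 : ℝ), h)) := measurable_const.prodMk measurable_id
  have h3 := h2 h1
  simpa using h3

open Classical in
theorem step {g : ℕ → Ω → ℝ} (hg : ∀ k, Measurable (g k)) (hl : ∀ k, P.map (g k) = expMeasure 1)
    (hi : iIndepFun g P) (n : ℕ) (x : ℝ) :
    (P {ω | (fun j => g j ω) ∈ AA τ I (n + 1) x}).toReal =
      ∫ e, (if x + e ∈ SS τ I then (0 : ℝ) else
        (P {ω | (fun j => g (j + 1) ω) ∈ AA τ I n (x + e)}).toReal) ∂(expMeasure 1) := by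
  have hG : Measurable (fun ω j => g (j + 1) ω) := measurable_pi_lambda _ fun j => hg (j + 1)
  have h1 := (indepFun_iff_map_prod_eq_prod_map_map (hg 0).aemeasurable hG.aemeasurable).mp
    (indep_head_tail hg hi)
  have : IsProbabilityMeasure (P.map (fun ω j => g (j + 1) ω)) :=
    Measure.isProbabilityMeasure_map hG.aemeasurable
  set E : Set (ℝ × (ℕ → ℝ)) := {q | x + q.1 ∉ SS τ I} ∩ {q | q.2 ∈ AA τ I n (x + q.1)} with hE
  have hEm : MeasurableSet E := by
    refine MeasurableSet.inter ?_ (measurableSet_AA2 τ I n x)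
    exact (measurable_const.add measurable_fst) (measurableSet_SS τ I).compl
  have h2 : {ω | (fun j => g j ω) ∈ AA τ I (n + 1) x} =
      (fun ω => (g 0 ω, fun j => g (j + 1) ω)) ⁻¹' E := by
    ext ω
    simp only [AA, Set.mem_ofPred_eq, Set.mem_preimage, hE, Set.mem_inter_iff]
    constructor
    · intro h
      refine ⟨?_, fun k hk => ?_⟩
      · have := h 0 (Nat.succ_pos n)
        simpa [ringTime] using this
      · have := h (k + 1) (by omega)
        rw [ringTime_succ, ← add_assoc] at this
        exact this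
    · rintro ⟨h3, h4⟩ k hk
      cases k with
      | zero => simpa [ringTime] using h3
      | succ k =>
        rw [ringTime_succ, ← add_assoc]
        exact h4 k (by omega)
  have h5 : P {ω | (fun j => g j ω) ∈ AA τ I (n + 1) x} =
      ∫⁻ e, (P.map (fun ω j => g (j + 1) ω)) (Prod.mk e ⁻¹' E) ∂(expMeasure 1) := by
    rw [h2, ← Measure.map_apply ((hg 0).prodMk hG) hEm, h1, hl 0, Measure.prod_apply hEm]
  rw [h5, ← integral_toReal]
  · refine integral_congr_ae (Eventually.of_forall fun e => ?_)
    show ((P.map (fun ω j => g (j + 1) ω)) (Prod.mk e ⁻¹' E)).toReal = _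
    by_cases he : x + e ∈ SS τ I
    · have h6 : Prod.mk e ⁻¹' E = ∅ := by
        ext h
        simp [hE, he]
      rw [h6]
      simp [he]
    · have h6 : Prod.mk e ⁻¹' E = AA τ I n (x + e) := by
        ext h
        simp [hE, he]
      rw [h6, Measure.map_apply hG (measurableSet_AA τ I n (x + e))]
      simp only [he, if_false]
      rfl
  · exact (measurable_measure_prodMk_left hEm).aemeasurable
  · exact Eventually.of_forall fun e => measure_lt_top _ _

open Classical in
theorem bound (hτ : Monotone τ) {L : ℝ} (hL0 : 0 ≤ L) (hL : ∀ i ∈ I, τ (i + 1) ≤ L) (n : ℕ) :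
    ∀ (g : ℕ → Ω → ℝ), (∀ k, Measurable (g k)) → (∀ k, P.map (g k) = expMeasure 1) →
      iIndepFun g P → ∀ x : ℝ, 0 ≤ x →
      |(P {ω | (fun j => g j ω) ∈ AA τ I n x}).toReal - U τ I x| ≤
        (1 - Real.exp (-L)) ^ n * (if x < L then 1 else 0) := by
  have := isProbabilityMeasure_expMeasure (show (0 : ℝ) < 1 by norm_num)
  have hρ0 : 0 ≤ 1 - Real.exp (-L) := by
    have : Real.exp (-L) ≤ 1 := by
      rw [Real.exp_le_one_iff]
      linarith
    linarith
  induction n with
  | zero =>
    intro g _ _ _ x _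
    have h1 : {ω | (fun j => g j ω) ∈ AA τ I 0 x} = Set.univ := by
      ext ω
      simp [AA]
    rw [h1, measure_univ, pow_zero, one_mul, ENNReal.toReal_one]
    split_ifs with hx
    · rw [abs_of_nonneg (by linarith [U_le_one (I := I) hτ x])]
      linarith [U_pos (τ := τ) (I := I) x]
    · have : U τ I x = 1 := by
        unfold U
        rw [rem_of_ge hL hτ (not_lt.mp hx), neg_zero, Real.exp_zero]
      rw [this]
      simp
  | succ n ih =>
    intro g hg hl hi x hx
    have hg' : ∀ k, Measurable (g (k + 1)) := fun k => hg (k + 1)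
    have hl' : ∀ k, P.map (g (k + 1)) = expMeasure 1 := fun k => hl (k + 1)
    have hi' : iIndepFun (fun k => g (k + 1)) P := hi.precomp (Nat.succ_injective)
    rw [step hg hl hi n x, ← integral_exp (I := I) hτ x]
    have hm1 : Measurable (fun e : ℝ => (P {ω | (fun j => g (j + 1) ω) ∈ AA τ I n (x + e)}).toReal) := by
      have hG : Measurable (fun ω j => g (j + 1) ω) := measurable_pi_lambda _ fun j => hg (j + 1)
      have : IsProbabilityMeasure (P.map (fun ω j => g (j + 1) ω)) :=
        Measure.isProbabilityMeasure_map hG.aemeasurable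
      have h1 := (measurable_measure_prodMk_left (ν := P.map (fun ω j => g (j + 1) ω))
        (measurableSet_AA2 τ I n x)).ennreal_toReal
      have h2 : (fun e : ℝ => (P {ω | (fun j => g (j + 1) ω) ∈ AA τ I n (x + e)}).toReal) =
          fun e : ℝ => ((P.map (fun ω j => g (j + 1) ω))
            (Prod.mk e ⁻¹' {q : ℝ × (ℕ → ℝ) | q.2 ∈ AA τ I n (x + q.1)})).toReal := by
        funext e
        have h3 : Prod.mk e ⁻¹' {q : ℝ × (ℕ → ℝ) | q.2 ∈ AA τ I n (x + q.1)} =
          AA τ I n (x + e) := rfl
        rw [h3, Measure.map_apply hG (measurableSet_AA τ I n (x + e))]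
        rfl
      rw [h2]
      exact h1
    have hset : Measurable (fun e : ℝ => x + e) := measurable_const.add measurable_id
    have hm2 : Measurable (fun e : ℝ => if x + e ∈ SS τ I then (0 : ℝ) else
        (P {ω | (fun j => g (j + 1) ω) ∈ AA τ I n (x + e)}).toReal) :=
      Measurable.ite (hset (measurableSet_SS τ I)) measurable_const hm1
    have hi1 : Integrable (fun e : ℝ => if x + e ∈ SS τ I then (0 : ℝ) else
        (P {ω | (fun j => g (j + 1) ω) ∈ AA τ I n (x + e)}).toReal) (expMeasure 1) := by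
      refine Integrable.mono' (integrable_const (1 : ℝ)) hm2.aestronglyMeasurable
        (Eventually.of_forall fun e => ?_)
      split_ifs
      · simp
      · rw [Real.norm_of_nonneg ENNReal.toReal_nonneg]
        exact ENNReal.toReal_le_of_le_ofReal zero_le_one (by simpa using prob_le_one)
    have hi2 : Integrable (fun e : ℝ => if x + e ∈ SS τ I then (0 : ℝ) else U τ I (x + e))
        (expMeasure 1) := by
      refine Integrable.mono' (integrable_const (1 : ℝ)) (measurable_gg x).aestronglyMeasurable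
        (Eventually.of_forall fun e => ?_)
      split_ifs
      · simp
      · rw [Real.norm_of_nonneg (U_pos _).le]
        exact U_le_one hτ _
    rw [← integral_sub hi1 hi2, ← Real.norm_eq_abs]
    have hbint : Integrable (fun e : ℝ => (1 - Real.exp (-L)) ^ n *
        (Set.Iic (L - x)).indicator (fun _ => (1 : ℝ)) e) (expMeasure 1) :=
      ((integrable_const (1 : ℝ)).indicator measurableSet_Iic).const_mul _
    refine (norm_integral_le_of_norm_le hbint ?_).trans ?_
    · filter_upwards [ae_nonneg] with e he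
      have h4 := ih (fun k => g (k + 1)) hg' hl' hi' (x + e) (by linarith)
      have h5 : (0 : ℝ) ≤ (Set.Iic (L - x)).indicator (fun _ => (1 : ℝ)) e :=
        Set.indicator_nonneg (fun _ _ => zero_le_one) e
      split_ifs with h6
      · simp only [sub_self, norm_zero]
        positivity
      · rw [Real.norm_eq_abs]
        refine h4.trans ?_
        refine mul_le_mul_of_nonneg_left ?_ (pow_nonneg hρ0 n)
        split_ifs with h7
        · rw [Set.indicator_of_mem (show e ∈ Set.Iic (L - x) by
            rw [Set.mem_Iic]; linarith)]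
        · exact h5
    · rw [integral_const_mul, integral_indicator measurableSet_Iic]
      have h8 : ∫ _ in Set.Iic (L - x), (1 : ℝ) ∂(expMeasure 1) =
          if 0 ≤ L - x then 1 - Real.exp (-(L - x)) else 0 := by
        rw [← exp_Iic, setIntegral_const, smul_eq_mul, mul_one]
        rfl
      rw [h8, pow_succ, mul_assoc]
      refine mul_le_mul_of_nonneg_left ?_ (pow_nonneg hρ0 n)
      by_cases h9 : x < L
      · rw [if_pos h9, if_pos (by linarith), mul_one]
        have h10 : Real.exp (-L) ≤ Real.exp (-(L - x)) := Real.exp_le_exp.mpr (by linarith)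
        linarith
      · rw [if_neg h9, mul_zero]
        split_ifs with h11
        · have h12 : L - x = 0 := by linarith [not_lt.mp h9]
          rw [h12]
          simp
        · exact le_rfl

theorem AA_antitone (x : ℝ) : Antitone (fun n => AA τ I n x) :=
  fun _ _ hmn _ hh k hk => hh k (lt_of_lt_of_le hk hmn)

end Void

open Void in
/-- M3. Void probabilities of a Poisson clock with exponential waiting times. -/
theorem stVoid : StVoid := by
  intro Ω _ P _ g hg hl hi τ hτ0 hτ I
  set L : ℝ := τ (I.sup id + 1) with hL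
  have hL0 : 0 ≤ L := hτ0.trans (hτ (Nat.zero_le _))
  have hLi : ∀ i ∈ I, τ (i + 1) ≤ L := by
    intro i hi
    refine hτ ?_
    have : i ≤ I.sup id := Finset.le_sup (f := id) hi
    omega
  set A : ℕ → Set Ω := fun n => {ω | (fun j => g j ω) ∈ AA τ I n 0} with hA
  have hAm : ∀ n, MeasurableSet (A n) := fun n =>
    (measurable_pi_lambda (fun ω j => g j ω) hg) (measurableSet_AA τ I n 0)
  have hAa : Antitone A := fun m n hmn ω hω => AA_antitone 0 hmn hω
  have hAi : {ω | ∀ i ∈ I, ∀ k, ringTime (fun j => g j ω) k ∉ Set.Ioc (τ i) (τ (i + 1))} =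
      ⋂ n, A n := by
    ext ω
    simp only [hA, AA, SS, Set.mem_ofPred_eq, Set.mem_iInter, zero_add]
    constructor
    · rintro h n k _ ⟨i, hi, hk⟩
      exact h i hi k hk
    · intro h i hi k hk
      exact h (k + 1) k (Nat.lt_succ_self k) ⟨i, hi, hk⟩
  have h1 : Tendsto (fun n => P (A n)) atTop (𝓝 (P (⋂ n, A n))) :=
    tendsto_measure_iInter_atTop (fun n => (hAm n).nullMeasurableSet) hAa
      ⟨0, measure_ne_top _ _⟩
  have h2 : Tendsto (fun n => (P (A n)).toReal) atTop (𝓝 (P (⋂ n, A n)).toReal) :=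
    (ENNReal.tendsto_toReal (measure_ne_top _ _)).comp h1
  have hρ0 : 0 ≤ 1 - Real.exp (-L) := by
    have : Real.exp (-L) ≤ 1 := by
      rw [Real.exp_le_one_iff]
      linarith
    linarith
  have hρ1 : 1 - Real.exp (-L) < 1 := by
    have := Real.exp_pos (-L)
    linarith
  have h3 : Tendsto (fun n => (P (A n)).toReal) atTop (𝓝 (U τ I 0)) := by
    rw [tendsto_iff_norm_sub_tendsto_zero]
    refine squeeze_zero (fun _ => norm_nonneg _) (fun n => ?_)
      (tendsto_pow_atTop_nhds_zero_of_lt_one hρ0 hρ1)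
    have h4 := bound (P := P) hτ hL0 hLi n g hg hl hi 0 le_rfl
    rw [Real.norm_eq_abs]
    refine h4.trans ?_
    have h5 : (if (0 : ℝ) < L then (1 : ℝ) else 0) ≤ 1 := by split_ifs <;> norm_num
    calc (1 - Real.exp (-L)) ^ n * (if (0 : ℝ) < L then (1 : ℝ) else 0)
        ≤ (1 - Real.exp (-L)) ^ n * 1 := mul_le_mul_of_nonneg_left h5 (pow_nonneg hρ0 n)
      _ = _ := mul_one _
  have h6 := tendsto_nhds_unique h2 h3
  rw [hAi]
  have h7 : U τ I 0 = Real.exp (-∑ i ∈ I, (τ (i + 1) - τ i)) := by
    unfold U rem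
    congr 2
    refine Finset.sum_congr rfl fun i _ => ?_
    have h8 : 0 ≤ τ i := hτ0.trans (hτ (Nat.zero_le _))
    have h9 : 0 ≤ τ (i + 1) := hτ0.trans (hτ (Nat.zero_le _))
    rw [max_eq_left h8, max_eq_left h9]
  rw [← h7, ← h6, ENNReal.ofReal_toReal (measure_ne_top _ _)]

end Pool.Agent.H18.GL
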