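import Pool.Agent.H18.GL.Assemble
import Pool.Agent.H18.GL.Chains
import Pool.Agent.H18.GL.Void
import Pool.Agent.H18.GL.OwnLaw
import Pool.Agent.H18.GL.OwnIndep
import Pool.Agent.H18.GL.Branch
import Pool.Agent.H18.GL.DatLaw
import Pool.Agent.H18.GL.Good
import Pool.Agent.H18.GL.Exist
import Pool.Agent.H18.GL.Dyn
import Pool.Agent.H18.GL.TreeEx

/-!
# The theory half of `p_c(T_5) < 1/2`
-/

set_option autoImplicit false

open MeasureTheory ProbabilityTheory Filter
open Pool.Agent.H41.GL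

namespace Pool.Agent.H18.GL

theorem strong_of_cavity : StStrong :=
  stStrong stKids stRoot stChainGC stGCBound
    (stDatLaw (stOwnLaw stVoid) stOwnIndep stBranch) stGood stCountable

theorem dynamics_exists : StDynamics := stDynamics stExists

theorem final_of_cavity : StFinal := stFinal strong_of_cavity dynamics_exists stTree stCountable

/-- Everything that is used in the final statement. -/
theorem full_of_cavity (hc : CavityMain) :
    (∃ (V : Type) (G : SimpleGraph V) (_ : G.LocallyFinite), G.IsTree ∧ G.IsRegularOfDegree 5) ∧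
    (∀ (V : Type) (G : SimpleGraph V) (_ : G.LocallyFinite), G.IsTree → G.IsRegularOfDegree 5 →
      ∀ p : ℝ, 0 ≤ p → p ≤ 1 → Nonempty (Dynamics G p)) ∧
    (∃ p0 : ℝ, p0 < 1 / 2 ∧ ∀ (V : Type) (G : SimpleGraph V) (_ : G.LocallyFinite),
      G.IsTree → G.IsRegularOfDegree 5 → ∀ p : ℝ, p0 ≤ p → p ≤ 1 →
        ∀ (o : V) (X : Dynamics G p), ¬ ∀ᵐ ω ∂X.P, FixMinus X o ω) ∧
    pc 5 < 1 / 2 ∧
    ¬ ∀ d : ℕ, 4 ≤ d → pc d = 1 / 2 := by
  have h5 := final_of_cavity hc
  refine ⟨?_, ?_, strong_of_cavity hc, h5, ?_⟩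
  · obtain ⟨V, G, hlf, h1, h2, _⟩ := stTree
    exact ⟨V, G, hlf, h1, h2⟩
  · intro V G hlf htree _ p hp0 hp1
    exact dynamics_exists V G hlf (stCountable V G hlf htree.connected) p hp0 hp1
  · intro h
    have := h 5 (by norm_num)
    rw [this] at h5
    exact lt_irrefl _ h5

end Pool.Agent.H18.GL
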