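import Pool.Agent.H18.GL.Kids

set_option autoImplicit false

open MeasureTheory ProbabilityTheory Filter
open scoped ENNReal Topology
open Pool.Agent.H41.GL

namespace Pool.Agent.H18.GL

theorem GoodClock.strictMono {g : ℕ → ℝ} (hg : GoodClock g) : StrictMono (ringTime g) := by
  apply strictMono_nat_of_lt_succ
  intro k
  unfold ringTime
  rw [Finset.sum_range_succ _ (k + 1)]
  linarith [hg.pos (k + 1)]

theorem GoodClock.ringTime_pos {g : ℕ → ℝ} (hg : GoodClock g) (k : ℕ) : 0 < ringTime g k := by
  unfold ringTime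
  exact Finset.sum_pos (fun i _ => hg.pos i) ⟨0, by simp⟩

theorem GoodClock.finite_le {g : ℕ → ℝ} (hg : GoodClock g) (t : ℝ) :
    {k | ringTime g k ≤ t}.Finite := by
  have h := hg.lim.eventually (eventually_gt_atTop t)
  rw [eventually_atTop] at h
  obtain ⟨N, hN⟩ := h
  apply (Set.finite_lt_nat N).subset
  intro k hk
  by_contra hkN
  exact absurd (hN k (not_lt.1 hkN)) (not_lt.2 hk)

variable {V : Type} {G : SimpleGraph V} [G.LocallyFinite] {init : V → Bool} {gap : V → ℕ → ℝ}
  {coin : V → ℕ → Bool} {σ : V → ℝ → Bool}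

/-- Last ring before a time. -/
theorem exists_last {g : ℕ → ℝ} (hg : GoodClock g) {a t : ℝ}
    (h : ∃ k, a < ringTime g k ∧ ringTime g k ≤ t) :
    ∃ k, a < ringTime g k ∧ ringTime g k ≤ t ∧ ∀ j, ringTime g j ∉ Set.Ioc (ringTime g k) t := by
  classical
  have hfin : {k | a < ringTime g k ∧ ringTime g k ≤ t}.Finite :=
    (hg.finite_le t).subset fun k hk => hk.2
  obtain ⟨k, hk, hmax⟩ := hfin.exists_maximalFor id _ h
  refine ⟨k, hk.1, hk.2, ?_⟩
  intro j hj
  have hj1 : a < ringTime g j ∧ ringTime g j ≤ t := ⟨hk.1.trans hj.1, hj.2⟩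
  have hkj : k < j := hg.strictMono.lt_iff_lt.1 hj.1
  exact absurd (hmax hj1 hkj.le) (not_le.2 hkj)

theorem plus_of_rings (hc : Compat G init gap coin σ) (hg : ∀ v, GoodClock (gap v)) {v : V}
    {a t : ℝ} (ha : 0 ≤ a) (hat : a ≤ t) (h1 : σ v a = true)
    (h2 : ∀ k, a < ringTime (gap v) k → ringTime (gap v) k ≤ t → σ v (ringTime (gap v) k) = true) :
    σ v t = true := by
  by_cases h : ∃ k, a < ringTime (gap v) k ∧ ringTime (gap v) k ≤ t
  · obtain ⟨k, hk1, hk2, hk3⟩ := exists_last (hg v) h
    rw [hc.const v _ t (ha.trans hk1.le) hk2 hk3]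
    exact h2 k hk1 hk2
  · rw [hc.const v a t ha hat]
    · exact h1
    · intro k hk
      exact h ⟨k, hk.1, hk.2⟩

theorem first_minus (hc : Compat G init gap coin σ) (hg : ∀ v, GoodClock (gap v)) {v : V}
    {a t : ℝ} (ha : 0 ≤ a) (hat : a ≤ t) (h1 : σ v a = true) (h2 : σ v t = false) :
    ∃ k, a < ringTime (gap v) k ∧ ringTime (gap v) k ≤ t ∧ σ v (ringTime (gap v) k) = false ∧
      ∀ t', a ≤ t' → t' < ringTime (gap v) k → σ v t' = true := by
  classical
  have hex : ∃ k, a < ringTime (gap v) k ∧ ringTime (gap v) k ≤ t ∧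
      σ v (ringTime (gap v) k) = false := by
    by_contra hno
    push Not at hno
    have := plus_of_rings hc hg ha hat h1 (fun k hk1 hk2 => by
      have := hno k hk1 hk2
      simpa using this)
    rw [h2] at this
    exact Bool.false_ne_true this
  refine ⟨Nat.find hex, (Nat.find_spec hex).1, (Nat.find_spec hex).2.1, (Nat.find_spec hex).2.2, ?_⟩
  intro t' ht1 ht2
  refine plus_of_rings hc hg ha ht1 h1 ?_
  intro k hk1 hk2
  have hlt : k < Nat.find hex := (hg v).strictMono.lt_iff_lt.1 (hk2.trans_lt ht2)
  have := Nat.find_min hex hlt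
  push Not at this
  have h3 := this hk1 (hk2.trans (ht2.le.trans (Nat.find_spec hex).2.1))
  simpa using h3

theorem jump_true (hreg : G.IsRegularOfDegree 5) (hc : Compat G init gap coin σ) {v : V} {k : ℕ}
    {b : ℝ} (hb : b < ringTime (gap v) k)
    (h : ∀ s, b ≤ s → s < ringTime (gap v) k → 3 ≤ plusNbrs G (fun w => σ w s) v) :
    σ v (ringTime (gap v) k) = true := by
  have h1 := hc.jump v k
  have h2 : ∀ᶠ s in 𝓝[<] (ringTime (gap v) k), s ∈ Set.Ico b (ringTime (gap v) k) :=
    Ico_mem_nhdsLT hb
  obtain ⟨s, hs1, hs2⟩ := (h1.and h2).exists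
  rw [hs1]
  have h3 := h s hs2.1 hs2.2
  unfold newSpin
  rw [hreg v, if_pos (by omega)]

theorem supp_le {ch : V → V → Fin 4 → V} (hk : Kids G ch) {u v : V} (huv : G.Adj u v)
    {q : Fin 4 → Option (ℕ × ℕ)} {k i : ℕ} {s : V → Bool}
    (h1 : ∀ w cl, q w = some cl → cl.1 ≤ i → i + 1 ≤ cl.2 → s (ch u v w) = true)
    (h2 : k ≤ i → s u = true) : supp q k i ≤ plusNbrs G s v := by
  classical
  rw [hk.plusNbrs_eq huv]
  unfold supp
  apply Nat.add_le_add
  · apply Finset.card_le_card
    intro w hw
    simp only [Finset.mem_filter, Finset.mem_univ, true_and] at hw ⊢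
    obtain ⟨cl, hcl, h3, h4⟩ := hw
    exact h1 w cl (by simpa using hcl) h3 h4
  · split_ifs with h3 h4
    · exact le_rfl
    · exact absurd (h2 h3) h4
    · exact Nat.zero_le _
    · exact le_rfl

theorem stValid : StValid := by
  classical
  intro V G _ hreg ch hk init gap coin σ hc hg m T hT0 hT R
  have hTn : ∀ i, 0 ≤ T i := fun i => hT0 ▸ hT (Nat.zero_le i)
  induction R with
  | zero => intros; right; trivial
  | succ R ih =>
    intro u v huv k c l hval s hls hpar
    by_cases hchain : Chain ch gap (R + 1) u v s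
    · exact Or.inr hchain
    left
    obtain ⟨hcm, hcl, hlm, q, hq, h0, hbirth, hsurv⟩ := hval
    have hno : ∀ k', ringTime (gap v) k' < s → ∀ w, ¬ Chain ch gap R v (ch u v w)
        (ringTime (gap v) k') := by
      intro k' hk' w hw
      exact hchain ⟨k', hk', w, hw⟩
    have child : ∀ k', ringTime (gap v) k' < s →
        (∀ t, T c ≤ t → t < ringTime (gap v) k' → σ v t = true) →
        ∀ w cl, q w = some cl → (cl.2 ≤ m → ringTime (gap v) k' ≤ T cl.2) →
        ∀ t, T cl.1 ≤ t → t < ringTime (gap v) k' → σ (ch u v w) t = true := by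
      intro k' hk' hv w cl hw hle
      rcases ih v (ch u v w) (hk.adj u v huv w) c cl.1 cl.2 (hq w cl hw) (ringTime (gap v) k') hle
        (fun _ => hv) with h | h
      · exact h
      · exact absurd h (hno k' hk' w)
    have step1 : T c < s → σ v (T c) = true := by
      intro hTs
      rcases Nat.eq_zero_or_pos c with rfl | hcpos
      · rw [hT0, hc.start]
        exact h0 rfl
      · obtain ⟨hr, hsup⟩ := hbirth hcpos
        have hcm' : c - 1 < m := by omega
        have hbit := hr hcm'
        have hex : ∃ k', T (c - 1) < ringTime (gap v) k' ∧ ringTime (gap v) k' ≤ T c := by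
          have h1 : ∃ k', ringTime (gap v) k' ∈ Set.Ioc (T (c - 1)) (T (c - 1 + 1)) := by
            simpa [dat, ownDat] using hbit
          rw [Nat.sub_add_cancel hcpos] at h1
          obtain ⟨k', hk'⟩ := h1
          exact ⟨k', hk'.1, hk'.2⟩
        obtain ⟨k', hk1, hk2, hk3⟩ := exists_last (hg v) hex
        rw [hc.const v _ (T c) ((hTn _).trans hk1.le) hk2 hk3]
        apply jump_true hreg hc hk1
        intro s' hs1 hs2
        refine le_trans hsup (supp_le hk huv ?_ ?_)
        · intro w cl hw h1 h2
          refine child k' (hk2.trans_lt hTs) ?_ w cl hw ?_ s' ?_ hs2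
          · intro t ht1 ht2
            exact absurd (ht2.trans_le hk2) (not_lt.2 ht1)
          · intro _
            exact hk2.trans (hT (by omega))
          · exact (hT h1).trans hs1
        · intro hkc
          exact hpar (by omega) s' ((hT hkc).trans hs1) (hs2.trans_le (hk2.trans hTs.le))
    intro t ht1 ht2
    by_contra hfalse
    have hfalse' : σ v t = false := by simpa using hfalse
    obtain ⟨k', hk1, hk2, hk3, hk4⟩ := first_minus hc hg (hTn c) ht1 (step1 (ht1.trans_lt ht2))
      hfalse'
    have hks : ringTime (gap v) k' < s := hk2.trans_lt ht2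
    -- the slot of the ring
    have hslot : ∃ i, c ≤ i ∧ i < l ∧ i ≤ m ∧ T i < ringTime (gap v) k' ∧
        (i < m → ringTime (gap v) k' ≤ T (i + 1)) := by
      by_cases hm : ringTime (gap v) k' ≤ T m
      · have hex : ∃ j, ringTime (gap v) k' ≤ T j := ⟨m, hm⟩
        set j := Nat.find hex with hj
        have hjs : ringTime (gap v) k' ≤ T j := Nat.find_spec hex
        have hjm : j ≤ m := Nat.find_min' hex hm
        have hj0 : j ≠ 0 := by
          intro h
          rw [h, hT0] at hjs
          exact absurd ((hg v).ringTime_pos k') (not_lt.2 hjs)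
        have hj1 : ¬ ringTime (gap v) k' ≤ T (j - 1) := Nat.find_min hex (by omega)
        push Not at hj1
        refine ⟨j - 1, ?_, ?_, by omega, hj1, fun _ => ?_⟩
        · by_contra hlt
          push Not at hlt
          have : T j ≤ T c := hT (by omega)
          linarith
        · by_contra hge
          push Not at hge
          have h1 : s ≤ T l := hls (by omega)
          have h2 : T l ≤ T (j - 1) := hT hge
          linarith
        · rw [Nat.sub_add_cancel (Nat.pos_of_ne_zero hj0)]
          exact hjs
      · push Not at hm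
        refine ⟨m, hcm, ?_, le_rfl, hm, fun h => absurd h (lt_irrefl _)⟩
        by_contra hge
        push Not at hge
        have h1 : s ≤ T l := hls hge
        have h2 : T l ≤ T m := hT hge
        linarith
    obtain ⟨i, hi1, hi2, hi3, hi4, hi5⟩ := hslot
    have hrings : Rings (dat m T ch init gap (R + 1) u v).1.2 i := by
      intro him
      have : ∃ k', ringTime (gap v) k' ∈ Set.Ioc (T i) (T (i + 1)) := ⟨k', hi4, hi5 him⟩
      simpa [dat, ownDat] using this
    have hsup := hsurv i hi1 hi2 hrings
    have : σ v (ringTime (gap v) k') = true := by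
      apply jump_true hreg hc hi4
      intro s' hs1 hs2
      refine le_trans hsup (supp_le hk huv ?_ ?_)
      · intro w cl hw h1 h2
        refine child k' hks hk4 w cl hw ?_ s' ((hT h1).trans hs1) hs2
        intro hclm
        have him : i < m := by omega
        exact (hi5 him).trans (hT h2)
      · intro hki
        exact hpar (hki.trans hi3) s' ((hT hki).trans hs1) (hs2.trans hks)
    rw [hk3] at this
    exact Bool.false_ne_true this

theorem stRoot : StRoot := by
  classical
  intro V G _ hreg ch hk init gap coin σ hc hg m T hT0 hT R u o huo hinit hnoring hkids s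
  have hTn : ∀ i, 0 ≤ T i := fun i => hT0 ▸ hT (Nat.zero_le i)
  by_cases hchain : Chain ch gap (R + 1) u o s
  · exact Or.inr hchain
  left
  intro t ht1 ht2
  by_contra hfalse
  have hfalse' : σ o t = false := by simpa using hfalse
  have h0 : σ o 0 = true := by rw [hc.start]; exact hinit
  obtain ⟨k', hk1, hk2, hk3, hk4⟩ := first_minus hc hg le_rfl ht1 h0 hfalse'
  have hks : ringTime (gap o) k' < s := hk2.trans_lt ht2
  -- the ring is after `T m`
  have hafter : T m < ringTime (gap o) k' := by
    by_contra hm
    push Not at hm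
    have hex : ∃ j, ringTime (gap o) k' ≤ T j := ⟨m, hm⟩
    set j := Nat.find hex with hj
    have hjs : ringTime (gap o) k' ≤ T j := Nat.find_spec hex
    have hjm : j ≤ m := Nat.find_min' hex hm
    have hj0 : j ≠ 0 := by
      intro h
      rw [h, hT0] at hjs
      exact absurd ((hg o).ringTime_pos k') (not_lt.2 hjs)
    have hj1 : ¬ ringTime (gap o) k' ≤ T (j - 1) := Nat.find_min hex (by omega)
    push Not at hj1
    have h1 := hnoring ⟨j - 1, by omega⟩
    have h2 : ¬ ∃ k', ringTime (gap o) k' ∈ Set.Ioc (T (j - 1)) (T (j - 1 + 1)) := by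
      simpa [dat, ownDat] using h1
    apply h2
    refine ⟨k', hj1, ?_⟩
    rw [Nat.sub_add_cancel (Nat.pos_of_ne_zero hj0)]
    exact hjs
  have : σ o (ringTime (gap o) k') = true := by
    apply jump_true hreg hc hafter
    intro s' hs1 hs2
    rw [hk.plusNbrs_eq huo]
    have hsub : (Finset.univ.filter fun w : Fin 4 => w ≠ 3) ⊆
        Finset.univ.filter fun w => σ (ch u o w) s' = true := by
      intro w hw
      simp only [Finset.mem_filter, Finset.mem_univ, true_and] at hw ⊢
      obtain ⟨c, hcv⟩ := hkids w hw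
      rcases stValid V G _ hreg ch hk init gap coin σ hc hg m T hT0 hT R o (ch u o w)
        (hk.adj u o huo w) 0 c (m + 1) hcv (ringTime (gap o) k')
        (fun h => absurd h (by omega)) (fun _ t h1 h2 => hk4 t (by rwa [hT0] at h1) h2) with h | h
      · refine h s' ?_ hs2
        have hcm : T c ≤ T m := by
          cases R with
          | zero => exact absurd ⟨k', hks, w, trivial⟩ hchain
          | succ R => exact hT hcv.1
        exact hcm.trans hs1
      · exact absurd ⟨k', hks, w, h⟩ hchain
    have hcard : (Finset.univ.filter fun w : Fin 4 => w ≠ 3).card = 3 := by decide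
    have := Finset.card_le_card hsub
    omega
  rw [hk3] at this
  exact Bool.false_ne_true this

end Pool.Agent.H18.GL
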